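import Pool.Agent.L5helper6.BF.Def
import Pool.Agent.L5helper6.BF.Mix

/-!
Alternating forms on families of vectors of the same length.
-/

namespace Pool.Agent.L5helper6.GG

open scoped Classical
open Module Function
open Pool.Agent.L5helper6.BF

set_option linter.unusedSectionVars false

variable {V : Type} [Fintype V] [DecidableEq V] {N k : ℕ}

/-- The lengths. -/
abbrev cN (V : Type) (N : ℕ) : V → ℕ := fun _ => N

/-- The coefficients change sign under the exchange of two indices. -/
def Alt {R : Type*} [Ring R] (t : Ten (cN V N) R) : Prop :=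
  ∀ u v : V, u ≠ v → ∀ j : V → Fin N, t (j ∘ Equiv.swap u v) = -t j

section K

variable {K : Type} [Field K] [CharZero K]

theorem ev_swap {t : Ten (cN V N) K} (ht : Alt t) {u v : V} (huv : u ≠ v) (x : V → Fin N → K) :
    ev t (x ∘ Equiv.swap u v : V → Fin N → K) = -ev t x := by
  unfold ev
  rw [← Equiv.sum_comp ((Equiv.swap u v).arrowCongr (Equiv.refl (Fin N)))]
  rw [← Finset.sum_neg_distrib]
  refine Finset.sum_congr rfl fun j _ => ?_
  have e : ((Equiv.swap u v).arrowCongr (Equiv.refl (Fin N))) j = j ∘ Equiv.swap u v := by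
    funext a
    simp [Equiv.arrowCongr]
  rw [e, ht u v huv j, neg_mul]
  congr 2
  rw [← Equiv.prod_comp (Equiv.swap u v) fun a => x a (j a)]
  rfl

theorem alt_zero {t : Ten (cN V N) K} (ht : Alt t) {u v : V} (huv : u ≠ v) {x : V → Fin N → K}
    (hx : x u = x v) : ev t x = 0 := by
  have h1 := ev_swap ht huv x
  have e : (x ∘ Equiv.swap u v : V → Fin N → K) = x := by
    funext a
    show x (Equiv.swap u v a) = x a
    by_cases ha : a = u
    · rw [ha, Equiv.swap_apply_left, hx]
    · by_cases hb : a = v
      · rw [hb, Equiv.swap_apply_right, hx]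
      · rw [Equiv.swap_apply_of_ne_of_ne ha hb]
  rw [e] at h1
  have h2 : (2 : K) * ev t x = 0 := by linear_combination h1
  exact (mul_eq_zero.1 h2).resolve_left two_ne_zero

/-- The family with the vectors in a part of the slots replaced. -/
noncomputable def ov {A : Type*} (p : V → Prop) (z : V → A) (y : {v // p v} → A) : V → A :=
  fun v => if h : p v then y ⟨v, h⟩ else z v

theorem ov_update {A : Type*} (p : V → Prop) [DecidableEq {v // p v}] (z : V → A) (y : {v // p v} → A) (s : {v // p v})
    (a : A) : ov p z (update y s a) = update (ov p z y) s.1 a := by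
  funext v
  unfold ov
  by_cases hv : v = s.1
  · subst hv
    rw [dif_pos s.2]
    exact (update_self (f := y) s a).trans (update_self (f := ov p z y) s.1 a).symm
  · rw [update_of_ne hv]
    by_cases h : p v
    · rw [dif_pos h, dif_pos h, update_of_ne]
      intro h1
      exact hv (congrArg Subtype.val h1)
    · rw [dif_neg h, dif_neg h]

/-- The form as an alternating map in a part of the slots. -/
noncomputable def am {t : Ten (cN V N) K} (ht : Alt t) (p : V → Prop) (z : V → Fin N → K) :
    (Fin N → K) [⋀^{v // p v}]→ₗ[K] K where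
  toFun y := ev t (ov p z y)
  map_update_add' := by
    intro inst y s a b
    have h := ev_lin t s.1 (ov p z y) 1 1 a b
    rw [one_smul, one_smul, one_mul, one_mul] at h
    rw [ov_update, ov_update, ov_update]
    exact h
  map_update_smul' := by
    intro inst y s c a
    have h := ev_smul1 t s.1 (ov p z y) c a
    rw [ov_update, ov_update]
    exact h
  map_eq_zero_of_eq' := by
    intro y s s' h hne
    have hne' : s.1 ≠ s'.1 := fun h1 => hne (Subtype.ext h1)
    refine alt_zero ht hne' ?_
    show ov p z y s.1 = ov p z y s'.1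
    unfold ov
    rw [dif_pos s.2, dif_pos s'.2]
    exact h

theorem am_apply {t : Ten (cN V N) K} (ht : Alt t) (p : V → Prop) (z : V → Fin N → K)
    (y : {v // p v} → Fin N → K) : am ht p z y = ev t (ov p z y) := rfl

/-- A linear change of the arguments of an alternating map. -/
theorem alt_det {S : Type} [Fintype S] [DecidableEq S] {W : Type} [AddCommGroup W] [Module K W]
    (f : W [⋀^S]→ₗ[K] K) (y : S → W) (g : Matrix S S K) :
    f (fun s => ∑ s', g s s' • y s') = g.det * f y := by
  have h := AlternatingMap.eq_smul_basis_det (Pi.basisFun K S)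
    (f.compLinearMap (Fintype.linearCombination K y))
  have h1 := congrArg (fun q : (S → K) [⋀^S]→ₗ[K] K => q g) h
  simp only [AlternatingMap.smul_apply, AlternatingMap.compLinearMap_apply] at h1
  have e1 : (fun s => Fintype.linearCombination K y (g s)) = fun s => ∑ s', g s s' • y s' := by
    funext s
    rw [Fintype.linearCombination_apply]
  have e2 : (fun s => Fintype.linearCombination K y ((Pi.basisFun K S) s)) = y := by
    funext s
    rw [Pi.basisFun_apply, Fintype.linearCombination_apply_single, one_smul]
  have e3 : (Pi.basisFun K S).det g = g.det := by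
    rw [Pi.basisFun_det]
    rfl
  have e4 : f (fun s => ∑ s', g s s' • y s') = f y * g.det := by
    rw [← e3, ← e1]
    refine h1.trans ?_
    rw [smul_eq_mul]
    congr 1
    exact congrArg f e2
  rw [e4, mul_comm]

theorem ev_block {t : Ten (cN V N) K} (ht : Alt t) (p : V → Prop) [Fintype {v // p v}]
    [DecidableEq {v // p v}] (z : V → Fin N → K)
    (y : {v // p v} → Fin N → K) (g : Matrix {v // p v} {v // p v} K) :
    ev t (ov p z fun s => ∑ s', g s s' • y s') = g.det * ev t (ov p z y) :=
  alt_det (am ht p z) y g

theorem ev_dep {t : Ten (cN V N) K} (ht : Alt t) (p : V → Prop) (z : V → Fin N → K)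
    (y : {v // p v} → Fin N → K) (h : ¬ LinearIndependent K y) : ev t (ov p z y) = 0 :=
  AlternatingMap.map_linearDependent (am ht p z) y h

theorem ov_self {A : Type*} (p : V → Prop) (x : V → A) : ov p x (fun s => x s.1) = x := by
  funext v
  unfold ov
  split_ifs <;> rfl

/-- The slots other than `u`, `v`. -/
abbrev Sx (u v : V) : Type := {t : V // t ≠ u ∧ t ≠ v}

theorem update_ov {A : Type*} (u v : V) (z : V → A) (y : Sx u v → A) (a b : A) :
    update (update (ov (fun t => t ≠ u ∧ t ≠ v) z y) v b) u a =
      ov (fun t => t ≠ u ∧ t ≠ v) (update (update z v b) u a) y := by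
  funext t
  by_cases h1 : t = u
  · subst h1
    rw [update_self]
    unfold ov
    rw [dif_neg (fun h => h.1 rfl), update_self]
  · rw [update_of_ne h1]
    by_cases h2 : t = v
    · subst h2
      rw [update_self]
      unfold ov
      rw [dif_neg (fun h => h.2 rfl), update_of_ne h1, update_self]
    · rw [update_of_ne h2]
      unfold ov
      rw [dif_pos ⟨h1, h2⟩, dif_pos ⟨h1, h2⟩]

/-- The bilinear forms after a change of the other vectors. -/
theorem mt_block {T : Fin k → Ten (cN V N) K} (hT : ∀ i, Alt (T i)) (u v : V)
    (x : V → Fin N → K) (y : Sx u v → Fin N → K) (g : Matrix (Sx u v) (Sx u v) K)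
    (i : Fin k) (l l' : Fin N) :
    mt T u v (ov (fun t => t ≠ u ∧ t ≠ v) x fun s => ∑ s', g s s' • y s') i l l' =
      g.det * mt T u v (ov (fun t => t ≠ u ∧ t ≠ v) x y) i l l' := by
  show ev (T i) (update (update _ v (Pi.single l' 1)) u (Pi.single l 1)) =
    g.det * ev (T i) (update (update _ v (Pi.single l' 1)) u (Pi.single l 1))
  rw [update_ov, update_ov, ev_block (hT i)]

theorem mt_dep {T : Fin k → Ten (cN V N) K} (hT : ∀ i, Alt (T i)) (u v : V)
    (x : V → Fin N → K) (h : ¬ LinearIndependent K fun s : Sx u v => x s.1)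
    (i : Fin k) (a b : Fin N → K) : ev (T i) (update (update x v b) u a) = 0 := by
  rw [← ov_self (fun t => t ≠ u ∧ t ≠ v) x, update_ov]
  exact ev_dep (hT i) _ _ _ h

end K

end Pool.Agent.L5helper6.GG
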