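import Pool.Agent.L5helper6.GG.Mfr

/-!
Minimal bases of subspaces over a number field: the content of the minors, and the height.
-/

namespace Pool.Agent.L5helper6.GG

open scoped Classical
open NumberField Module Function
open Pool.Agent Pool.Agent.N852.GR Pool.Agent.L5helper6.BF

set_option linter.unusedSectionVars false

variable {F : Type} [Field F] [NumberField F] {N : ℕ}

/-- The coordinates of integral vectors with respect to a minimal basis have bounded
denominators. -/
theorem coef (F : Type) [Field F] [NumberField F] (m : ℕ) : ∃ B : ℕ, B ≠ 0 ∧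
    ∀ (N : ℕ) (P : Submodule F (Fin N → F)) (y : ℕ → Fin N → 𝓞 F), Mfr P m y →
      ∀ α : Fin m → F, (∀ q, ∃ z : 𝓞 F, (z : F) = ∑ j : Fin m, α j * co (y j) q) →
        ∀ j, ∃ z : 𝓞 F, (z : F) = (B : F) * α j := by
  set δ : ℝ := 1 / (4 * (m + 1)) with hδ
  have hδ0 : 0 < δ := by positivity
  obtain ⟨K, hK⟩ := pig2s F m δ hδ0
  refine ⟨K.factorial, Nat.factorial_ne_zero _, fun N P y hy α hα j => ?_⟩
  choose z hz using hα
  obtain ⟨q, hq1, hqK, γ, hw⟩ := hK α
  set u : Fin m → F := fun j => (q : F) * α j - γ j with hu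
  have hu0 : ∀ j, u j = 0 := by
    by_contra hcon
    push Not at hcon
    obtain ⟨j₁, hj₁⟩ := hcon
    obtain ⟨j₀, hj₀, hmax⟩ : ∃ j₀, u j₀ ≠ 0 ∧ ∀ j, j₀ < j → u j = 0 := by
      have hne : (Finset.univ.filter fun j => u j ≠ 0).Nonempty :=
        ⟨j₁, Finset.mem_filter.2 ⟨Finset.mem_univ _, hj₁⟩⟩
      refine ⟨(Finset.univ.filter fun j => u j ≠ 0).max' hne, ?_, fun j hj => ?_⟩
      · exact (Finset.mem_filter.1 (Finset.max'_mem _ hne)).2
      · by_contra h0
        have := Finset.le_max' (Finset.univ.filter fun j => u j ≠ 0) j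
          (Finset.mem_filter.2 ⟨Finset.mem_univ _, h0⟩)
        exact absurd hj (not_lt.2 this)
    set v : Fin N → 𝓞 F := fun a => (q : 𝓞 F) * z a - ∑ j : Fin m, γ j * y j a with hv
    have hve : ∀ a, (v a : F) = ∑ j : Fin m, u j * co (y j) a := by
      intro a
      show algebraMap (𝓞 F) F ((q : 𝓞 F) * z a - ∑ j : Fin m, γ j * y j a) = _
      have h1 : algebraMap (𝓞 F) F (z a) = ∑ j : Fin m, α j * co (y j) a := hz a
      rw [map_sub, map_mul, map_natCast, h1, map_sum, Finset.mul_sum, ← Finset.sum_sub_distrib]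
      refine Finset.sum_congr rfl fun j _ => ?_
      rw [map_mul]
      show _ = ((q : F) * α j - γ j) * co (y j) a
      show _ - algebraMap (𝓞 F) F (γ j) * co (y j) a = _
      ring
    have hco : co v = ∑ j : Fin m, u j • co (y j) := by
      funext a
      rw [Finset.sum_apply]
      exact hve a
    have hvP : co v ∈ P := by
      rw [hco]
      exact Submodule.sum_mem _ fun j _ => P.smul_mem _ (hy j j.2).1
    have hvS : co v ∉ Sp y j₀ := by
      intro h1
      apply (hy j₀ j₀.2).2.1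
      rw [hco, ← Finset.add_sum_erase _ _ (Finset.mem_univ j₀)] at h1
      have h2 : ∑ j ∈ Finset.univ.erase j₀, u j • co (y j) ∈ Sp y j₀ := by
        refine Submodule.sum_mem _ fun j hj => ?_
        rcases lt_or_gt_of_ne (Finset.ne_of_mem_erase hj) with h | h
        · exact Submodule.smul_mem _ _ (mem_Sp y h)
        · rw [hmax j h, zero_smul]
          exact Submodule.zero_mem _
      have h3 := Submodule.sub_mem _ h1 h2
      rw [add_sub_cancel_right] at h3
      exact (Submodule.smul_mem_iff _ hj₀).1 h3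
    have hmin := (hy j₀ j₀.2).2.2 v hvP hvS
    have hB : 0 < ‖io (y j₀)‖ := mfr_pos hy j₀.2
    have hlt : ‖io v‖ ≤ 1 / 4 * ‖io (y j₀)‖ := by
      refine Ctt.io_le v _ (by positivity) fun a w => ?_
      rw [hve]
      refine (tri_sum w _ _).trans ?_
      calc ∑ j : Fin m, w (u j * co (y j) a) ≤ ∑ _j : Fin m, δ * ‖io (y j₀)‖ := by
            refine Finset.sum_le_sum fun j _ => ?_
            rw [map_mul]
            rcases le_or_gt j j₀ with h | h
            · exact mul_le_mul (hw j w) ((Arc.le_io (y j) a w).trans (mfr_mono hy h j₀.2))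
                (apply_nonneg _ _) hδ0.le
            · rw [hmax j h, map_zero, zero_mul]
              positivity
        _ = m * δ * ‖io (y j₀)‖ := by
            rw [Finset.sum_const, Finset.card_univ, Fintype.card_fin, nsmul_eq_mul]
            ring
        _ ≤ 1 / 4 * ‖io (y j₀)‖ := by
            refine mul_le_mul_of_nonneg_right ?_ hB.le
            rw [hδ, mul_one_div, div_le_div_iff₀ (by positivity) (by norm_num)]
            linarith
    linarith
  obtain ⟨c, hc⟩ : q ∣ K.factorial := Nat.dvd_factorial (by omega) hqK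
  refine ⟨(c : 𝓞 F) * γ j, ?_⟩
  have h1 : (q : F) * α j = algebraMap (𝓞 F) F (γ j) := sub_eq_zero.1 (hu0 j)
  show algebraMap (𝓞 F) F ((c : 𝓞 F) * γ j) = _
  rw [map_mul, map_natCast, ← h1, hc, Nat.cast_mul]
  ring

theorem coef' (F : Type) [Field F] [NumberField F] (s : ℕ) : ∃ B : ℕ, B ≠ 0 ∧
    ∀ (N : ℕ) (P : Submodule F (Fin N → F)) (y : ℕ → Fin N → 𝓞 F), Mfr P s y →
      ∀ β : F, (∀ p : Fin s → Fin N, ∃ z : 𝓞 F, (z : F) = β * mn (fun i => co (y i)) p) →
        ∃ z : 𝓞 F, (z : F) = (B : F) * β := by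
  induction s with
  | zero =>
    refine ⟨1, one_ne_zero, fun N P y _ β h => ?_⟩
    obtain ⟨z, hz⟩ := h fun i => i.elim0
    refine ⟨z, hz.trans ?_⟩
    simp [mn]
  | succ s ih =>
    obtain ⟨B, hB, ih⟩ := ih
    obtain ⟨B', hB', hc⟩ := coef F (s + 1)
    refine ⟨B * B', mul_ne_zero hB hB', fun N P y hy β h => ?_⟩
    obtain ⟨z, hz⟩ := ih N P y (fun i hi => hy i (by omega)) ((B' : F) * β) (fun p => by
      obtain ⟨z, hz⟩ := hc N P y hy (Fin.snoc (fun i => β * cf (fun i => co (y i)) p i)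
        (β * mn (fun i => co (y i)) p)) (fun q => by
          obtain ⟨z, hz⟩ := h (Fin.snoc p q)
          refine ⟨z, hz.trans ?_⟩
          rw [mn_snoc, Fin.sum_univ_castSucc]
          simp only [Fin.snoc_castSucc, Fin.snoc_last, Fin.val_castSucc, Fin.val_last]
          rw [mul_add, Finset.mul_sum, add_comm]
          congr 1
          · exact Finset.sum_congr rfl fun i _ => by ring
          · ring) (Fin.last s)
      rw [Fin.snoc_last] at hz
      exact ⟨z, hz.trans (by ring)⟩)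
    refine ⟨z, hz.trans ?_⟩
    push_cast
    ring

theorem mem_content {ι : Type} {a : ι → 𝓞 F} (ha : a ≠ 0) {B : ℕ}
    (h : ∀ β : F, (∀ i, ∃ z : 𝓞 F, (z : F) = β * (a i : F)) → ∃ z : 𝓞 F, (z : F) = (B : F) * β) :
    (B : 𝓞 F) ∈ Ideal.span (Set.range a) := by
  obtain ⟨c, hc⟩ : ∃ c : Ideal (𝓞 F), c = Ideal.span (Set.range a) := ⟨_, rfl⟩
  have hmem : ∀ i, a i ∈ c := fun i => by
    rw [hc]
    exact Ideal.subset_span ⟨i, rfl⟩
  rw [← hc]
  have hc0 : c ≠ ⊥ := by
    intro hc0
    apply ha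
    funext i
    have := hmem i
    rw [hc0] at this
    exact (Ideal.mem_bot).1 this
  have hcF : (c : FractionalIdeal (nonZeroDivisors (𝓞 F)) F) ≠ 0 :=
    FractionalIdeal.coeIdeal_ne_zero.2 hc0
  have h1 : FractionalIdeal.spanSingleton (nonZeroDivisors (𝓞 F)) ((B : F)) *
      (c : FractionalIdeal (nonZeroDivisors (𝓞 F)) F)⁻¹ ≤ 1 := by
    rw [FractionalIdeal.spanSingleton_mul_le_iff]
    intro α hα
    rw [FractionalIdeal.mem_inv_iff hcF] at hα
    rw [FractionalIdeal.mem_one_iff]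
    refine h α fun i => ?_
    have h2 := hα (algebraMap (𝓞 F) F (a i))
      ((FractionalIdeal.mem_coeIdeal _).2 ⟨_, hmem i, rfl⟩)
    rw [FractionalIdeal.mem_one_iff] at h2
    exact h2
  have h2 : FractionalIdeal.spanSingleton (nonZeroDivisors (𝓞 F)) ((B : F)) ≤
      (c : FractionalIdeal (nonZeroDivisors (𝓞 F)) F) := by
    calc FractionalIdeal.spanSingleton (nonZeroDivisors (𝓞 F)) ((B : F))
        = (FractionalIdeal.spanSingleton (nonZeroDivisors (𝓞 F)) ((B : F)) *
          (c : FractionalIdeal (nonZeroDivisors (𝓞 F)) F)⁻¹) *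
          (c : FractionalIdeal (nonZeroDivisors (𝓞 F)) F) := by
          rw [mul_assoc, inv_mul_cancel₀ hcF, mul_one]
      _ ≤ 1 * (c : FractionalIdeal (nonZeroDivisors (𝓞 F)) F) := by gcongr
      _ = _ := one_mul _
  rw [FractionalIdeal.spanSingleton_le_iff_mem, FractionalIdeal.mem_coeIdeal] at h2
  obtain ⟨x, hx, hx'⟩ := h2
  have h3 : x = (B : 𝓞 F) := by
    apply FaithfulSMul.algebraMap_injective (𝓞 F) F
    rw [hx']
    simp
  rw [← h3]
  exact hx

theorem hgt_gen {ι : Type} [Fintype ι] {a : ι → 𝓞 F} {A : ℝ} (hA : 0 < A)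
    (harc : ∀ w : InfinitePlace F, ∃ i, A ≤ w (a i : F)) {B : ℕ} (hB : B ≠ 0)
    (hctt : (B : 𝓞 F) ∈ Ideal.span (Set.range a)) :
    A ^ finrank ℚ F ≤ (B : ℝ) ^ finrank ℚ F * Height.mulHeight (fun i => (a i : F)) := by
  set d := finrank ℚ F with hd
  have w₀ : InfinitePlace F := Classical.arbitrary _
  have ha0 : a ≠ 0 := by
    rintro rfl
    obtain ⟨i, hi⟩ := harc w₀
    have : (((0 : ι → 𝓞 F) i : 𝓞 F) : F) = 0 := by simp
    rw [this, map_zero] at hi
    linarith
  have hx0 : (fun i => (a i : F)) ≠ 0 := by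
    intro h
    apply ha0
    funext i
    have h1 : (a i : F) = 0 := congrFun h i
    exact_mod_cast h1
  have h1 := NumberField.absNorm_mul_finprod_finitePlace_eq_one (K := F) ha0
  have h2 := NumberField.mulHeight_eq (K := F) hx0
  set I := (Ideal.span (Set.range a)).absNorm with hN
  set f := ∏ᶠ v : FinitePlace F, ⨆ i, v (a i : F) with hf
  have hNm : (I : ℝ) ≤ (B : ℝ) ^ d := by
    have h3 : I ∣ (Ideal.span {(B : 𝓞 F)}).absNorm :=
      Ideal.absNorm_dvd_absNorm_of_le ((Ideal.span_singleton_le_iff_mem _).2 hctt)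
    have h4 : (Ideal.span {(B : 𝓞 F)}).absNorm = B ^ d := by
      rw [Ideal.absNorm_span_natCast, NumberField.RingOfIntegers.rank]
    rw [h4] at h3
    have h6 : I ≤ B ^ d := Nat.le_of_dvd (pow_pos (Nat.pos_of_ne_zero hB) _) h3
    exact_mod_cast h6
  have hinf : A ^ d ≤ ∏ v : InfinitePlace F, (⨆ i, v (a i : F)) ^ v.mult := by
    rw [hd, ← InfinitePlace.sum_mult_eq, ← Finset.prod_pow_eq_pow_sum]
    refine Finset.prod_le_prod (fun w _ => pow_nonneg hA.le _) fun w _ => ?_
    refine pow_le_pow_left₀ hA.le ?_ _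
    obtain ⟨p, hp⟩ := harc w
    exact hp.trans (le_ciSup (f := fun i => w (a i : F)) (Set.finite_range _).bddAbove p)
  have hH0 : 0 ≤ Height.mulHeight (fun i => (a i : F)) := by
    have := Height.one_le_mulHeight (fun i => (a i : F))
    linarith
  refine hinf.trans ?_
  have e : ∏ v : InfinitePlace F, (⨆ i, v (a i : F)) ^ v.mult =
      (I : ℝ) * Height.mulHeight (fun i => (a i : F)) := by
    rw [h2]
    calc _ = (∏ v : InfinitePlace F, (⨆ i, v (a i : F)) ^ v.mult) * (I * f) := by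
          rw [h1, mul_one]
      _ = _ := by ring
  rw [e]
  exact mul_le_mul_of_nonneg_right hNm hH0

/-- The integral minors. -/
noncomputable def mi (y : ℕ → Fin N → 𝓞 F) {s : ℕ} (p : Fin s → Fin N) : 𝓞 F :=
  (Matrix.of fun i l : Fin s => y i (p l)).det

theorem mi_eq (y : ℕ → Fin N → 𝓞 F) {s : ℕ} (p : Fin s → Fin N) :
    ((mi y p : 𝓞 F) : F) = mn (fun i => co (y i)) p := by
  show algebraMap (𝓞 F) F (Matrix.det _) = _
  rw [RingHom.map_det]
  rfl

/-- **The height of a subspace and a minimal basis.** -/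
theorem hgt (F : Type) [Field F] [NumberField F] (m : ℕ) : ∃ C : ℝ, 1 ≤ C ∧
    ∀ (N : ℕ) (P : Submodule F (Fin N → F)) (y : ℕ → Fin N → 𝓞 F), Mfr P m y →
      (∏ i : Fin m, ‖io (y i)‖) ^ finrank ℚ F ≤
        C * Height.mulHeight (fun p : Fin m → Fin N => mn (fun i => co (y i)) p) := by
  obtain ⟨κ, hκ, hA⟩ := arc F m
  obtain ⟨B, hB, hC⟩ := coef' F m
  set d := finrank ℚ F with hd
  refine ⟨max 1 ((B : ℝ) ^ d / κ ^ d), le_max_left _ _, fun N P y h => ?_⟩
  have hprod : 0 < ∏ i : Fin m, ‖io (y i)‖ := Finset.prod_pos fun i _ => mfr_pos h i.2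
  have harc : ∀ w : InfinitePlace F, ∃ p : Fin m → Fin N,
      κ * ∏ i : Fin m, ‖io (y i)‖ ≤ w ((mi y p : 𝓞 F) : F) := by
    intro w
    obtain ⟨p, hp⟩ := hA N m P y le_rfl h w
    exact ⟨p, by rw [mi_eq]; exact hp⟩
  have w₀ : InfinitePlace F := Classical.arbitrary _
  have ha0 : (fun p : Fin m → Fin N => mi y p) ≠ 0 := by
    intro h0
    obtain ⟨p, hp⟩ := harc w₀
    have h1 : mi y p = 0 := congrFun h0 p
    rw [h1] at hp
    have h2 : ((0 : 𝓞 F) : F) = 0 := by simp
    rw [h2, map_zero] at hp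
    have := mul_pos hκ hprod
    linarith
  have hctt : (B : 𝓞 F) ∈ Ideal.span (Set.range fun p : Fin m → Fin N => mi y p) :=
    mem_content ha0 fun β hβ => hC N P y h β fun p => by
      obtain ⟨z, hz⟩ := hβ p
      exact ⟨z, by rw [hz, mi_eq]⟩
  have h1 := hgt_gen (mul_pos hκ hprod) harc hB hctt
  simp only [mi_eq] at h1
  have hH0 : 0 ≤ Height.mulHeight (fun p : Fin m → Fin N => mn (fun i => co (y i)) p) := by
    have := Height.one_le_mulHeight (fun p : Fin m → Fin N => mn (fun i => co (y i)) p)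
    linarith
  rw [← hd, mul_pow] at h1
  have h8 : (∏ i : Fin m, ‖io (y i)‖) ^ d ≤ (B : ℝ) ^ d / κ ^ d *
      Height.mulHeight (fun p : Fin m → Fin N => mn (fun i => co (y i)) p) := by
    rw [div_mul_eq_mul_div, le_div_iff₀ (pow_pos hκ d)]
    refine le_trans (le_of_eq ?_) h1
    ring
  exact h8.trans (mul_le_mul_of_nonneg_right (le_max_right _ _) hH0)

end Pool.Agent.L5helper6.GG
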