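import Pool.Agent.L5helper6.GG.Frm

/-!
The existence of a rational point in the open set.
-/

namespace Pool.Agent.L5helper6.GG

open scoped Classical
open NumberField Module Function
open Pool.Agent Pool.Agent.N852.GR Pool.Agent.L5helper6.BF

set_option linter.unusedSectionVars false

variable {V : Type} [Fintype V] [DecidableEq V] {N k : ℕ}

/-- The rank condition at a family: all combinations of the bilinear forms in the vector `v` and
one of the other vectors. -/
def SRk {K : Type} [Field K] (T : Fin k → Ten (cN V N) K) (v : V) (R : ℕ) (x : V → Fin N → K) :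
    Prop := ∀ c : {t : V // t ≠ v} → Fin k → K, c ≠ 0 →
    R ≤ (∑ t, ∑ i, c t i • Matrix.of fun (l l' : Fin N) => mt T t.1 v x i l l').rank

theorem rkF_of {K : Type} [Field K] {T : Fin k → Ten (cN V N) K} {u v : V} (huv : u ≠ v) {R : ℕ}
    {x : V → Fin N → K} (h : SRk T v R x) : RkF T u v R x := by
  intro s hs
  have h1 := h (fun t i => if t.1 = u then s i else 0) (by
    intro h0
    apply hs
    funext i
    have h2 := congrFun (congrFun h0 ⟨u, huv⟩) i
    simpa using h2)
  refine h1.trans (le_of_eq ?_)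
  congr 1
  rw [Finset.sum_eq_single (⟨u, huv⟩ : {t : V // t ≠ v})]
  · refine Finset.sum_congr rfl fun i _ => ?_
    rw [if_pos rfl]
  · intro t _ ht
    refine Finset.sum_eq_zero fun i _ => ?_
    rw [if_neg (fun h0 => ht (Subtype.ext h0)), zero_smul]
  · intro h0
    exact absurd (Finset.mem_univ _) h0

theorem lld_gen {K : Type} [Field K] [Infinite K] {W U ι : Type} [AddCommGroup W] [Module K W]
    [AddCommGroup U] [Module K U] [FiniteDimensional K W] [FiniteDimensional K U] [Fintype ι]
    [Nonempty ι] (B : ι → W →ₗ[K] U)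
    (h : ∀ c : ι → K, c ≠ 0 → Fintype.card ι ≤ finrank K (LinearMap.range (∑ i, c i • B i))) :
    ∃ v, LinearIndependent K fun i => B i v := by
  obtain ⟨v, hv⟩ := lldP K W U (Fintype.card ι) (fun j => B ((Fintype.equivFin ι).symm j))
    Fintype.card_pos (by
    intro c hc
    have h1 := h (fun i => c (Fintype.equivFin ι i)) (by
      intro h0
      apply hc
      funext j
      have := congrFun h0 ((Fintype.equivFin ι).symm j)
      simpa using this)
    refine h1.trans (le_of_eq ?_)
    have e : (∑ i, c (Fintype.equivFin ι i) • B i) =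
        ∑ j, c j • B ((Fintype.equivFin ι).symm j) := by
      rw [← Equiv.sum_comp (Fintype.equivFin ι)
        (fun j => c j • B ((Fintype.equivFin ι).symm j))]
      refine Finset.sum_congr rfl fun i _ => ?_
      rw [Equiv.symm_apply_apply]
    rw [e])
  refine ⟨v, ?_⟩
  have h2 := hv.comp (Fintype.equivFin ι) (Fintype.equivFin ι).injective
  have e : (fun j : Fin (Fintype.card ι) => B ((Fintype.equivFin ι).symm j) v) ∘
      (Fintype.equivFin ι) = fun i => B i v := by
    funext i
    simp
  rwa [e] at h2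

variable {K : Type} [Field K] [CharZero K]

theorem li_of_der {T : Fin k → Ten (cN V N) K} (hT : ∀ i, Alt (T i)) (hk : 1 ≤ k) {v : V}
    {x : V → Fin N → K} (h : LinearIndependent K (der T v x)) :
    LinearIndependent K fun s : {t : V // t ≠ v} => x s.1 := by
  by_contra hcon
  apply h.ne_zero ⟨0, hk⟩
  funext l
  show ev (T ⟨0, hk⟩) (update x v (Pi.single l 1)) = 0
  have e : update x v (Pi.single l 1) = ov (fun t => t ≠ v) (update x v (Pi.single l 1))
      (fun s : {t : V // t ≠ v} => x s.1) := by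
    funext t
    unfold ov
    by_cases ht : t ≠ v
    · rw [dif_pos ht, update_of_ne ht]
    · rw [dif_neg ht]
  rw [e]
  exact ev_dep (hT _) _ _ _ hcon

/-- **A rational point of the open set.** -/
theorem exists_x [Infinite K] [Nontrivial V] {T : Fin k → Ten (cN V N) K}
    (hT : ∀ i, Alt (T i)) (hk : 1 ≤ k) (hN : Fintype.card V ≤ N) {R : ℕ}
    (hR : (Fintype.card V + 1) * k ≤ R)
    (h : ∀ (v : V) (x : V → Fin N → K), LinearIndependent K (fun s : {t : V // t ≠ v} => x s.1) →
      SRk T v R x) :
    ∃ x : V → Fin N → K, Inc T x ∧ GG T x := by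
  have hcard : 2 ≤ Fintype.card V := Fintype.one_lt_card
  have h2k : 2 * k ≤ R := by
    have h3 : 2 * k ≤ (Fintype.card V + 1) * k := Nat.mul_le_mul_right k (by omega)
    omega
  -- the first family
  obtain ⟨f⟩ : Nonempty (V ↪ Fin N) := by
    rw [Function.Embedding.nonempty_iff_card_le, Fintype.card_fin]
    exact hN
  set x₀ : V → Fin N → K := fun v => Pi.single (f v) 1 with hx₀
  have hli₀ : LinearIndependent K x₀ :=
    (Pi.linearIndependent_single_one (Fin N) K).comp f f.injective
  obtain ⟨v₀, u₀, hne⟩ := exists_pair_ne V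
  obtain ⟨z₁, hz₁⟩ := ex_one T hne (rkF_of hne (h u₀ x₀
    (hli₀.comp _ Subtype.val_injective))) hk h2k ⊤ (by rw [finrank_top, finrank_fin_fun]; omega)
  set x₁ : V → Fin N → K := update x₀ u₀ (z₁ : Fin N → K) with hx₁
  have hli₁ := li_of_der hT hk hz₁
  have hs₁ := h v₀ x₁ hli₁
  set W := kr T v₀ x₁ with hW
  have hWd := kr_dim T v₀ x₁
  set S := Submodule.span K (Set.range (der T v₀ x₁)) with hS
  have hSd : finrank K S ≤ k := by
    have := finrank_range_le_card (R := K) (der T v₀ x₁)
    rwa [Fintype.card_fin] at this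
  have hι : Nonempty ({t : V // t ≠ v₀} × Fin k) := ⟨(⟨u₀, hne.symm⟩, ⟨0, hk⟩)⟩
  have hcι : Fintype.card ({t : V // t ≠ v₀} × Fin k) = (Fintype.card V - 1) * k := by
    rw [Fintype.card_prod, Fintype.card_fin]
    congr 1
    have := Fintype.card_subtype_compl (fun t : V => t = v₀)
    rw [Fintype.card_subtype_eq] at this
    convert this
  obtain ⟨z, hz⟩ := lld_gen (K := K) (W := W) (U := (Fin N → K) ⧸ S)
    (fun p : {t : V // t ≠ v₀} × Fin k => S.mkQ ∘ₗ bl T p.1.1 v₀ x₁ p.2 ∘ₗ W.subtype) (by
    intro c hc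
    have h0 := hs₁ (fun t i => c (t, i)) (by
      intro h0
      apply hc
      funext p
      exact congrFun (congrFun h0 p.1) p.2)
    set B : (Fin N → K) →ₗ[K] (Fin N → K) := ∑ p : {t : V // t ≠ v₀} × Fin k,
      c p • (bl T p.1.1 v₀ x₁ p.2 : (Fin N → K) →ₗ[K] (Fin N → K)) with hB
    have h5 : R ≤ finrank K (LinearMap.range B) := by
      have e : B = Matrix.toLin' (∑ t : {t : V // t ≠ v₀}, ∑ i, c (t, i) •
          Matrix.of fun (l l' : Fin N) => mt T t.1 v₀ x₁ i l l') := by
        rw [map_sum, hB, Fintype.sum_prod_type]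
        refine Finset.sum_congr rfl fun t _ => ?_
        rw [map_sum]
        refine Finset.sum_congr rfl fun i _ => ?_
        rw [map_smul]
        rfl
      rw [e]
      exact h0
    have h1 : (∑ p : {t : V // t ≠ v₀} × Fin k, c p •
        (S.mkQ ∘ₗ bl T p.1.1 v₀ x₁ p.2 ∘ₗ W.subtype)) = S.mkQ ∘ₗ B ∘ₗ W.subtype := by
      apply LinearMap.ext
      intro z
      have h9 : B (W.subtype z) = ∑ p : {t : V // t ≠ v₀} × Fin k,
          (c p • (bl T p.1.1 v₀ x₁ p.2 : (Fin N → K) →ₗ[K] (Fin N → K))) (W.subtype z) :=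
        LinearMap.sum_apply _ _ _
      rw [LinearMap.sum_apply, LinearMap.comp_apply, LinearMap.comp_apply, h9, map_sum]
      refine Finset.sum_congr rfl fun p _ => ?_
      rw [LinearMap.smul_apply, LinearMap.smul_apply, map_smul]
      rfl
    rw [h1, LinearMap.range_comp, LinearMap.range_comp, Submodule.range_subtype, hcι]
    have h2 := finrank_le_map_add_ker B W
    have h3 := finrank_le_map_add_ker S.mkQ (W.map B)
    rw [Submodule.ker_mkQ] at h3
    have h4 := LinearMap.finrank_range_add_finrank_ker B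
    rw [finrank_fin_fun] at h4
    have h6 : (Fintype.card V + 1) * k = (Fintype.card V - 1) * k + 2 * k := by
      rw [← Nat.add_mul]
      congr 1
      omega
    have key : ∀ w m q s b t : ℕ, N ≤ w + k → w ≤ m + t → m ≤ q + s → s ≤ k → b + t = N →
        R ≤ b → (Fintype.card V - 1) * k ≤ q := by
      intros
      omega
    exact key _ _ _ _ _ _ hWd h2 h3 hSd h4 h5)
  refine ⟨update x₁ v₀ (z : Fin N → K), (mem_kr T v₀ x₁ _).1 z.2, ?_⟩
  let g : Fin k → S := fun i => ⟨der T v₀ x₁ i, Submodule.subset_span ⟨i, rfl⟩⟩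
  have hg : LinearIndependent K g := LinearIndependent.of_comp S.subtype hz₁
  have htot := hg.sumElim_of_quotient
    (fun p : {t : V // t ≠ v₀} × Fin k => bl T p.1.1 v₀ x₁ p.2 z) hz
  let φ : V × Fin k → Fin k ⊕ ({t : V // t ≠ v₀} × Fin k) := fun p =>
    if hp : p.1 = v₀ then Sum.inl p.2 else Sum.inr (⟨p.1, hp⟩, p.2)
  have hφ : Function.Injective φ := by
    rintro ⟨a, i⟩ ⟨b, j⟩ hab
    simp only [φ] at hab
    by_cases ha : a = v₀ <;> by_cases hb : b = v₀
    · rw [dif_pos ha, dif_pos hb] at hab
      rw [ha, hb, Sum.inl_injective hab]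
    · rw [dif_pos ha, dif_neg hb] at hab
      exact absurd hab (by simp)
    · rw [dif_neg ha, dif_pos hb] at hab
      exact absurd hab (by simp)
    · rw [dif_neg ha, dif_neg hb] at hab
      have h1 := Sum.inr_injective hab
      have h2 : a = b := congrArg (fun q => q.1.1) h1
      have h3 : i = j := congrArg (fun q => q.2) h1
      rw [h2, h3]
  have h7 := htot.comp φ hφ
  unfold GG
  have e : (Sum.elim (fun i => ((g i : S) : Fin N → K))
      (fun p : {t : V // t ≠ v₀} × Fin k => (bl T p.1.1 v₀ x₁ p.2 z : Fin N → K)) ∘ φ) =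
      fun p : V × Fin k => (der T p.1 (update x₁ v₀ (z : Fin N → K)) p.2 : Fin N → K) := ?_
  · rw [← e]
    exact h7
  funext p
  rw [Function.comp_apply]
  simp only [φ]
  by_cases hp : p.1 = v₀
  · rw [dif_pos hp, Sum.elim_inl]
    obtain ⟨p1, p2⟩ := p
    simp only at hp
    subst hp
    exact (congrFun (der_update T p1 x₁ _) p2).symm
  · rw [dif_neg hp, Sum.elim_inr]
    exact bl_apply T hp x₁ p.2 _

end Pool.Agent.L5helper6.GG
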