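import Pool.Agent.L5helper6.GG.Fr
import Pool.Agent.L5helper6.BF.Fam

/-!
The bound for the bad families of alternating forms from the rank condition.
-/

namespace Pool.Agent.L5helper6.GG

open scoped Classical
open NumberField Module Function
open Pool.Agent Pool.Agent.N852.GR Pool.Agent.L5helper6.BF

set_option linter.unusedSectionVars false

variable {F : Type} [Field F] [NumberField F]
variable {V : Type} [Fintype V] [DecidableEq V] {N k : ℕ}

/-- The minor of the vectors other than `u`, `v`. -/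
noncomputable def dt {K : Type*} [CommRing K] {S : Type} [Fintype S] [DecidableEq S] (x : S → Fin N → K)
    (p : S → Fin N) : K := (Matrix.of fun s l : S => x s (p l)).det

/-- The set of parameters. -/
def KK (F : Type) [Field F] [NumberField F] (N : ℕ) (u v : V) (κ : ℝ) :
    Set (Tup (cN V N) (EE F)) :=
  {x | (∀ t, ‖(x t : Fin N → EE F)‖ ≤ 1) ∧
    (∀ w, ∃ p : Sx u v → Fin N, κ ≤ ‖dt (fun (s : Sx u v) (l : Fin N) => pr w (x s.1 l)) p‖) ∧
    ∀ w, ∃ p : Sx u v → Fin N, κ ≤ ‖dt (fun (s : Sx u v) (l : Fin N) => pc w (x s.1 l)) p‖}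

theorem KK_compact (u v : V) (κ : ℝ) : IsCompact (KK F N u v κ) := by
  have h1 : IsCompact (Set.pi Set.univ fun _ : V =>
      Metric.closedBall (0 : Fin N → EE F) 1) :=
    isCompact_univ_pi fun t => isCompact_closedBall _ _
  refine h1.of_isClosed_subset ?_ ?_
  · have e : KK F N u v κ =
        (⋂ t, {x : Tup (cN V N) (EE F) | ‖(x t : Fin N → EE F)‖ ≤ 1}) ∩
        ((⋂ w, {x : Tup (cN V N) (EE F) | ∃ p : Sx u v → Fin N,
            κ ≤ ‖dt (fun (s : Sx u v) (l : Fin N) => pr w (x s.1 l)) p‖}) ∩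
          ⋂ w, {x : Tup (cN V N) (EE F) | ∃ p : Sx u v → Fin N,
            κ ≤ ‖dt (fun (s : Sx u v) (l : Fin N) => pc w (x s.1 l)) p‖}) := by
      ext x
      simp only [KK, Set.mem_ofPred_eq, Set.mem_inter_iff, Set.mem_iInter]
    rw [e]
    have hc : ∀ (t : V) (m : Fin N),
        Continuous fun x : Tup (cN V N) (EE F) => x t m := fun t m =>
      (continuous_apply m).comp (continuous_apply t)
    refine IsClosed.inter ?_ (IsClosed.inter ?_ ?_)
    · exact isClosed_iInter fun t => isClosed_le (continuous_norm.comp (continuous_apply t))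
        continuous_const
    · refine isClosed_iInter fun w => closed_ex _ (fun p => ?_) κ
      refine continuous_norm.comp (Continuous.matrix_det ?_)
      exact continuous_matrix fun s l => (pr_cont w).comp (hc s.1 (p l))
    · refine isClosed_iInter fun w => closed_ex _ (fun p => ?_) κ
      refine continuous_norm.comp (Continuous.matrix_det ?_)
      exact continuous_matrix fun s l => (pc_cont w).comp (hc s.1 (p l))
  · intro x hx t _
    rw [Metric.mem_closedBall, dist_zero_right]
    exact hx.1 t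

/-- The rank condition. -/
def RC (T : Fin k → Ten (cN V N) (𝓞 F)) (R : ℕ) : Prop :=
  ∀ σ : F →+* ℂ, ∀ u v : V, u ≠ v → ∀ x : V → Fin N → ℂ,
    LinearIndependent ℂ (fun s : Sx u v => x s.1) → RkAt (ts T σ) u v R x

theorem li_of_dt {K : Type} [Field K] {S : Type} [Fintype S] [DecidableEq S] {x : S → Fin N → K}
    {p : S → Fin N} (h : dt x p ≠ 0) : LinearIndependent K x := by
  rw [Fintype.linearIndependent_iff]
  intro c hc
  have h1 : Matrix.vecMul c (Matrix.of fun s l : S => x s (p l)) = 0 := by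
    funext l
    have h2 := congrFun hc (p l)
    simp only [Finset.sum_apply, Pi.smul_apply, smul_eq_mul, Pi.zero_apply] at h2
    simpa [Matrix.vecMul, dotProduct] using h2
  have h2 := Matrix.eq_zero_of_vecMul_eq_zero h h1
  intro i
  exact congrFun h2 i

theorem RCe_KK {T : Fin k → Ten (cN V N) (𝓞 F)} {R : ℕ} (h : RC T R) {u v : V}
    (huv : u ≠ v) {κ : ℝ} (hκ : 0 < κ) {x : Tup (cN V N) (EE F)} (hx : x ∈ KK F N u v κ) :
    RCe (mt (te T) u v x) R := by
  obtain ⟨-, hx1, hx2⟩ := hx
  refine RCe_of T u v R x (fun w => h _ u v huv _ ?_) (fun w => h _ u v huv _ ?_)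
  · obtain ⟨p, hp⟩ := hx1 w
    refine li_of_dt (p := p) ?_
    intro h0
    rw [h0, norm_zero] at hp
    linarith
  · obtain ⟨p, hp⟩ := hx2 w
    refine li_of_dt (p := p) ?_
    intro h0
    rw [h0, norm_zero] at hp
    linarith

theorem Alt_tF {T : Fin k → Ten (cN V N) (𝓞 F)} (hT : ∀ i, Alt (T i)) (i : Fin k) :
    Alt (tF T i) := by
  intro u v huv j
  show ((T i (j ∘ Equiv.swap u v) : 𝓞 F) : F) = -(T i j : F)
  rw [hT i u v huv j]
  exact map_neg (algebraMap (𝓞 F) F) _

theorem li_of_gd {T : Fin k → Ten (cN V N) (𝓞 F)} (hT : ∀ i, Alt (T i)) (hk : 1 ≤ k)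
    {u v : V} (huv : u ≠ v) {y : Tup (cN V N) (𝓞 F)} {w : Fin N → 𝓞 F}
    (h : Gd T v (update y u w)) :
    LinearIndependent F (M := Fin N → F) (fun s : Sx u v => cF y s.1) := by
  obtain ⟨l, hl⟩ := gd_ne h ⟨0, hk⟩
  by_contra hcon
  apply hl
  have e := ev_cF (T ⟨0, hk⟩) (update (update y u w) v (Pi.single l 1))
  have h1 : ev (tF T ⟨0, hk⟩) (cF (update (update y u w) v (Pi.single l 1))) = 0 := by
    rw [cF_update, cF_update, update_comm huv]
    exact mt_dep (Alt_tF hT) u v (cF y) hcon ⟨0, hk⟩ _ _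
  have h2 : ((ev (T ⟨0, hk⟩) (update (update y u w) v (Pi.single l 1)) : 𝓞 F) : F) = 0 :=
    e.symm.trans h1
  exact_mod_cast h2

theorem dt_smul {S : Type} [Fintype S] [DecidableEq S] (f : EE F →+* ℂ)
    (hf : ∀ (c : ℝ) (x : EE F), f (c • x) = (c : ℂ) * f x) (c : S → ℝ) (y : S → Fin N → F)
    (p : S → Fin N) : dt (fun (s : S) (l : Fin N) => f (c s • mixedEmbedding F (y s l))) p =
      ((∏ s, c s : ℝ) : ℂ) * f (mixedEmbedding F (dt y p)) := by
  unfold dt
  have e1 : (Matrix.of fun s l : S => f (c s • mixedEmbedding F (y s (p l)))) =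
      Matrix.of fun s l : S => (c s : ℂ) *
        (Matrix.of fun s l : S => f (mixedEmbedding F (y s (p l)))) s l := by
    ext s l
    simp only [Matrix.of_apply]
    exact hf _ _
  rw [e1, Matrix.det_mul_column]
  congr 1
  · push_cast
    rfl
  · have h1 := RingHom.map_det (f.comp (mixedEmbedding F)) (Matrix.of fun s l : S => y s (p l))
    exact h1.symm

/-- **The bound for the bad families from the rank condition.** -/
theorem bb (T : Fin k → Ten (cN V N) (𝓞 F)) (hT : ∀ i, Alt (T i)) (hk : 1 ≤ k) (R : ℕ)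
    (hR : RC T R) (hRn : R ≤ N) : BB T R := by
  intro u v huv
  obtain ⟨κ, C₁, hκ, _, hfr⟩ := exists_fr F (Fintype.card (Sx u v))
  refine bb_of T R huv hRn (KK_compact u v κ) (fun x hx => RCe_KK hR huv hκ hx) ?_
  rintro y ⟨w, hw⟩
  obtain ⟨y'', g, hg0, hg, hne, hbal, -⟩ := hfr (Sx u v) (Fintype.equivFin _) N _
    (li_of_gd hT hk huv hw)
  set y' : Tup (cN V N) (𝓞 F) := ov (fun t => t ≠ u ∧ t ≠ v) y y'' with hy'
  have hy's : ∀ s : Sx u v, y' s.1 = y'' s := by
    intro s
    rw [hy']
    unfold ov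
    rw [dif_pos s.2]
  have h1 : ∀ i l l', mt (tF T) u v (cF y') i l l' = g.det * mt (tF T) u v (cF y) i l l' := by
    intro i l l'
    have e1 : cF y' = ov (fun t => t ≠ u ∧ t ≠ v) (cF y)
        (fun s : Sx u v => ∑ s', g s s' • cF y s'.1) := by
      funext t
      show co (y' t) = _
      by_cases ht : t ≠ u ∧ t ≠ v
      · unfold ov
        rw [dif_pos ht]
        show co (y' t) = ∑ s' : Sx u v, g ⟨t, ht⟩ s' • (cF y s'.1 : Fin N → F)
        rw [← hg ⟨t, ht⟩, ← hy's ⟨t, ht⟩]
      · unfold ov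
        rw [dif_neg ht, hy']
        unfold ov
        rw [dif_neg ht]
        rfl
    rw [e1, mt_block (Alt_tF hT)]
    congr 2
    exact ov_self _ _
  have hpos : ∀ t, t ≠ u → t ≠ v → 0 < ‖io (y' t)‖ := by
    intro t h3 h4
    have h5 := hy's ⟨t, h3, h4⟩
    simp only at h5
    rw [h5]
    exact Ctt.io_pos (hne _)
  set x : Tup (cN V N) (EE F) := fun t =>
    if t = u ∨ t = v then 0 else ‖io (y' t)‖⁻¹ • io (y' t) with hx
  have hxt : ∀ t, t ≠ u → t ≠ v → x t = ‖io (y' t)‖⁻¹ • io (y' t) := by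
    intro t h3 h4
    have h5 : ¬ (t = u ∨ t = v) := by
      push Not
      exact ⟨h3, h4⟩
    simp only [hx]
    rw [if_neg h5]
  set r : V → ℝ := fun t => if t = u ∨ t = v then 1 else ‖io (y' t)‖ with hr
  have hrpos : ∀ t, 0 < r t := by
    intro t
    simp only [hr]
    split_ifs with h3
    · norm_num
    · push Not at h3
      exact hpos t h3.1 h3.2
  have hprod : 0 < ∏ s, ‖io (y'' s)‖ := Finset.prod_pos fun s _ => Ctt.io_pos (hne s)
  have hmin : ∀ (f : EE F →+* ℂ) (hf : ∀ (c : ℝ) (x : EE F), f (c • x) = (c : ℂ) * f x)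
      (w : InfinitePlace F) (hw : ∀ a : F, ‖f (mixedEmbedding F a)‖ = w a),
      ∃ p : Sx u v → Fin N, κ ≤ ‖dt (fun (s : Sx u v) (l : Fin N) => f (x s.1 l)) p‖ := by
    intro f hf w hw
    obtain ⟨p, hp⟩ := hbal w
    refine ⟨p, ?_⟩
    have e1 : (fun (s : Sx u v) (l : Fin N) => f (x s.1 l)) = fun (s : Sx u v) (l : Fin N) =>
        f (‖io (y'' s)‖⁻¹ • mixedEmbedding F (co (y'' s) l)) := by
      funext s l
      rw [hxt s.1 s.2.1 s.2.2, hy's s]
      rfl
    rw [e1, dt_smul f hf, norm_mul, hw, Complex.norm_real, Real.norm_eq_abs,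
      Finset.prod_inv_distrib, abs_of_pos (inv_pos.2 hprod), ← div_eq_inv_mul,
      le_div_iff₀ hprod]
    exact hp
  refine ⟨y', g.det, ∏ t, r t, x, hg0, Finset.prod_pos fun t _ => hrpos t,
    ⟨?_, ?_, ?_⟩, ?_, ?_⟩
  · intro t
    by_cases h3 : t = u ∨ t = v
    · have : x t = 0 := by
        simp only [hx]
        rw [if_pos h3]
      rw [this]
      show ‖(0 : Fin N → EE F)‖ ≤ 1
      rw [norm_zero]
      norm_num
    · push Not at h3
      rw [hxt t h3.1 h3.2, norm_smul, norm_inv, norm_norm,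
        inv_mul_cancel₀ (hpos t h3.1 h3.2).ne']
  · intro w
    exact hmin (pr w) (pr_smul w) w.1 (norm_pr_emb w)
  · intro w
    exact hmin (pc w) (pc_smul w) w.1 (norm_pc_emb w)
  · intro i l l'
    rw [← mt_cF, ← mt_cF]
    exact h1 i l l'
  · intro i l l'
    have q1 : mixedEmbedding F ((mt T u v y' i l l' : 𝓞 F) : F) =
        mt (te T) u v (fun t => io (y' t)) i l l' := by
      have := mt_map ((mixedEmbedding F).comp (algebraMap (𝓞 F) F)) T u v y' i l l'
      exact this.symm
    have q2 : mt (te T) u v (fun t => io (y' t)) =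
        mt (te T) u v (fun t => (algebraMap ℝ (EE F) (r t)) • x t) := by
      refine mt_congr _ fun t h3 h4 => ?_
      have h5 : r t = ‖io (y' t)‖ := by
        simp only [hr]
        rw [if_neg]
        push Not
        exact ⟨h3, h4⟩
      rw [hxt t h3 h4, h5]
      funext m
      show io (y' t) m = algebraMap ℝ (EE F) ‖io (y' t)‖ * (‖io (y' t)‖⁻¹ • io (y' t) m)
      rw [← Algebra.smul_def, smul_smul, mul_inv_cancel₀ (hpos t h3 h4).ne', one_smul]
    rw [q1, q2, mt_smul]
    have q3 : update (update (fun t => algebraMap ℝ (EE F) (r t)) v 1) u 1 =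
        fun t => algebraMap ℝ (EE F) (r t) := by
      funext t
      by_cases h3 : t = u
      · subst h3
        have : r t = 1 := by simp [hr]
        rw [update_self, this, map_one]
      · rw [update_of_ne h3]
        by_cases h4 : t = v
        · subst h4
          have : r t = 1 := by simp [hr]
          rw [update_self, this, map_one]
        · rw [update_of_ne h4]
    rw [q3, ← map_prod, ← Algebra.smul_def]

end Pool.Agent.L5helper6.GG
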