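import Pool.Agent.L5helper6.GG.Ctn
import Pool.Agent.L5helper6.GG.Alt

/-!
Minimal integral bases of subspaces, indexed by any finite type.
-/

namespace Pool.Agent.L5helper6.GG

open scoped Classical
open NumberField Module Function
open Pool.Agent Pool.Agent.N852.GR Pool.Agent.L5helper6.BF

set_option linter.unusedSectionVars false

/-- **Minimal integral bases.** -/
theorem exists_fr (F : Type) [Field F] [NumberField F] (m : ℕ) : ∃ κ C : ℝ, 0 < κ ∧ 1 ≤ C ∧
    ∀ (S : Type) [Fintype S] [DecidableEq S] (e : S ≃ Fin m) (N : ℕ) (x : S → Fin N → F),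
      LinearIndependent F x → ∃ (y : S → Fin N → 𝓞 F) (g : Matrix S S F), g.det ≠ 0 ∧
        (∀ s, co (y s) = ∑ s', g s s' • x s') ∧ (∀ s, y s ≠ 0) ∧
        (∀ w : InfinitePlace F, ∃ p : S → Fin N, κ * ∏ s, ‖io (y s)‖ ≤
          w (Matrix.of fun s l : S => co (y s) (p l)).det) ∧
        (∏ s, ‖io (y s)‖) ^ finrank ℚ F ≤ C * Height.mulHeight fun p : Fin m → Fin N =>
          (Matrix.of fun i l : Fin m => co (y (e.symm i)) (p l)).det := by
  obtain ⟨κ, hκ, hA⟩ := arc F m
  obtain ⟨C, hC, hH⟩ := hgt F m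
  refine ⟨κ, C, hκ, hC, fun S _ _ e N x hx => ?_⟩
  have hcard : Fintype.card S = m := by rw [Fintype.card_congr e, Fintype.card_fin]
  have hfr : finrank F (Submodule.span F (Set.range x)) = m := by
    rw [finrank_span_eq_card hx, hcard]
  obtain ⟨y₀, hy₀⟩ := exists_mfr (Submodule.span F (Set.range x)) m hfr.ge
  have hprod : ∏ s, ‖io (y₀ (e s))‖ = ∏ i : Fin m, ‖io (y₀ i)‖ :=
    Equiv.prod_comp e fun i : Fin m => ‖io (y₀ i)‖
  have hex : ∀ s, ∃ c : S → F, ∑ s', c s' • x s' = co (y₀ (e s)) := fun s =>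
    (Submodule.mem_span_range_iff_exists_fun F).1 (hy₀ (e s) (e s).2).1
  choose g hg using hex
  have harc : ∀ w : InfinitePlace F, ∃ p : S → Fin N, κ * ∏ s, ‖io (y₀ (e s))‖ ≤
      w (Matrix.of fun s l : S => co (y₀ (e s)) (p l)).det := by
    intro w
    obtain ⟨p, hp⟩ := hA N m _ y₀ le_rfl hy₀ w
    refine ⟨fun s => p (e s), ?_⟩
    rw [hprod]
    refine hp.trans (le_of_eq ?_)
    congr 1
    unfold mn
    rw [← Matrix.det_submatrix_equiv_self e]
    rfl
  refine ⟨fun s => y₀ (e s), g, ?_, fun s => (hg s).symm, fun s => mfr_ne hy₀ (e s).2, harc, ?_⟩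
  · obtain ⟨p, hp⟩ := harc (Classical.arbitrary _)
    intro h0
    have h1 : (Matrix.of fun s l : S => co (y₀ (e s)) (p l)) =
        (Matrix.of g) * (Matrix.of fun s l : S => x s (p l)) := by
      ext s l
      rw [Matrix.mul_apply, Matrix.of_apply, ← hg s, Finset.sum_apply]
      rfl
    have h2 : (Matrix.of g).det = 0 := h0
    rw [h1, Matrix.det_mul, h2, zero_mul, map_zero] at hp
    have h3 : 0 < κ * ∏ s, ‖io (y₀ (e s))‖ :=
      mul_pos hκ (Finset.prod_pos fun s _ => mfr_pos hy₀ (e s).2)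
    linarith
  · rw [hprod]
    refine (hH N _ y₀ hy₀).trans (le_of_eq ?_)
    congr 2
    funext p
    unfold mn
    congr 1
    ext i l
    simp

end Pool.Agent.L5helper6.GG
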