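import Pool.Agent.L5helper6.GG.Fam
import Pool.Agent.L5helper6.BF.Gen

/-!
Change of bases, and the open set.
-/

namespace Pool.Agent.L5helper6.GG

open scoped Classical
open NumberField Module Function
open Pool.Agent Pool.Agent.N852.GR Pool.Agent.L5helper6.BF

set_option linter.unusedSectionVars false

variable {V : Type} [Fintype V] [DecidableEq V] {N k : ℕ}
variable {K : Type} [Field K] [CharZero K]

/-- The action of matrices on families. -/
def ga (g : Matrix V V K) (x : V → Fin N → K) : V → Fin N → K := fun v => ∑ v', g v v' • x v'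

/-- The two families are bases of the same space. -/
def Eqf (x x' : V → Fin N → K) : Prop := ∃ g : Matrix V V K, g.det ≠ 0 ∧ x' = ga g x

theorem ga_mul (A B : Matrix V V K) (x : V → Fin N → K) : ga (A * B) x = ga A (ga B x) := by
  funext v
  unfold ga
  simp only [Matrix.mul_apply, Finset.sum_smul, Finset.smul_sum, smul_smul]
  rw [Finset.sum_comm]

theorem ga_one (x : V → Fin N → K) : ga (1 : Matrix V V K) x = x := by
  funext v
  unfold ga
  rw [Finset.sum_eq_single v]
  · rw [Matrix.one_apply_eq, one_smul]
  · intro v' _ h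
    rw [Matrix.one_apply_ne h.symm, zero_smul]
  · intro h
    exact absurd (Finset.mem_univ v) h

theorem Eqf_symm {x x' : V → Fin N → K} (h : Eqf x x') : Eqf x' x := by
  obtain ⟨g, hg, rfl⟩ := h
  refine ⟨g⁻¹, ?_, ?_⟩
  · rw [Matrix.det_nonsing_inv]
    simpa using hg
  · rw [← ga_mul, Matrix.nonsing_inv_mul _ (isUnit_iff_ne_zero.2 hg), ga_one]

theorem amu_add {V : Type} [Fintype V] (d e : DecidableEq V) (t : (V → Fin N) → K)
    (y : V → Fin N → K) (s : V) (a b : Fin N → K) :
    @ev V _ d (cN V N) K _ t (@update V (fun _ => Fin N → K) e y s (a + b)) =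
      @ev V _ d (cN V N) K _ t (@update V (fun _ => Fin N → K) e y s a) +
      @ev V _ d (cN V N) K _ t (@update V (fun _ => Fin N → K) e y s b) := by
  obtain rfl : d = e := Subsingleton.elim _ _
  have h := @ev_lin V _ d (cN V N) K _ t s y 1 1 a b
  rw [one_smul, one_smul, one_mul, one_mul] at h
  exact h

theorem amu_smul {V : Type} [Fintype V] (d e : DecidableEq V) (t : (V → Fin N) → K)
    (y : V → Fin N → K) (s : V) (c : K) (a : Fin N → K) :
    @ev V _ d (cN V N) K _ t (@update V (fun _ => Fin N → K) e y s (c • a)) =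
      c • @ev V _ d (cN V N) K _ t (@update V (fun _ => Fin N → K) e y s a) := by
  obtain rfl : d = e := Subsingleton.elim _ _
  exact @ev_smul1 V _ d (cN V N) K _ t s y c a

/-- The form as an alternating map. -/
noncomputable def amu {t : Ten (cN V N) K} (ht : Alt t) : (Fin N → K) [⋀^V]→ₗ[K] K where
  toFun y := ev t y
  map_update_add' := fun y s a b => amu_add _ _ t y s a b
  map_update_smul' := fun y s c a => amu_smul _ _ t y s c a
  map_eq_zero_of_eq' := fun _ _ _ h hne => alt_zero ht hne h

theorem ev_ga {t : Ten (cN V N) K} (ht : Alt t) (g : Matrix V V K) (x : V → Fin N → K) :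
    ev t (ga g x : V → Fin N → K) = g.det * ev t x := alt_det (amu ht) x g

theorem Inc_frame {T : Fin k → Ten (cN V N) K} (hT : ∀ i, Alt (T i)) {x x' : V → Fin N → K}
    (h : Eqf x x') (hx : Inc T x) : Inc T x' := by
  obtain ⟨g, hg, rfl⟩ := h
  intro i
  rw [ev_ga (hT i), hx i, mul_zero]

/-- The open set. -/
def GG (T : Fin k → Ten (cN V N) K) (x : V → Fin N → K) : Prop :=
  LinearIndependent K (M := Fin N → K) (fun p : V × Fin k => der T p.1 x p.2)

/-- The family with the vector `x j` in the slot `i`. -/
theorem der_same {T : Fin k → Ten (cN V N) K} (hT : ∀ i, Alt (T i)) {i j v : V} (hij : i ≠ j)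
    (hvi : v ≠ i) (hvj : v ≠ j) (x : V → Fin N → K) (a : Fin k) :
    der T v (update x i (x j)) a = 0 := by
  funext l
  show ev (T a) (update (update x i (x j)) v (Pi.single l 1)) = 0
  refine alt_zero (hT a) hij ?_
  rw [update_of_ne hvi.symm, update_self, update_of_ne hvj.symm, update_of_ne hij.symm]

theorem der_swap {T : Fin k → Ten (cN V N) K} (hT : ∀ i, Alt (T i)) {i j : V} (hij : i ≠ j)
    (x : V → Fin N → K) (a : Fin k) :
    der T j (update x i (x j)) a = -(der T i x a : Fin N → K) := by
  funext l
  show ev (T a) (update (update x i (x j)) j (Pi.single l 1)) =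
    -ev (T a) (update x i (Pi.single l 1))
  have h := ev_swap (hT a) hij (update x i (Pi.single l 1))
  rw [← h]
  congr 1
  funext t
  show _ = update x i (Pi.single l 1) (Equiv.swap i j t)
  by_cases h1 : t = i
  · subst h1
    rw [Equiv.swap_apply_left, update_of_ne hij, update_self, update_of_ne hij.symm]
  · by_cases h2 : t = j
    · subst h2
      rw [Equiv.swap_apply_right, update_self, update_self]
    · rw [Equiv.swap_apply_of_ne_of_ne h1 h2, update_of_ne h2, update_of_ne h1, update_of_ne h1]

theorem der_trans {T : Fin k → Ten (cN V N) K} (hT : ∀ i, Alt (T i)) {i j : V} (hij : i ≠ j)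
    (x : V → Fin N → K) (c : K) (v : V) (a : Fin k) :
    (der T v (update x i (x i + c • x j)) a : Fin N → K) =
      der T v x a - (if v = j then c • (der T i x a : Fin N → K) else 0) := by
  by_cases hvi : v = i
  · subst hvi
    rw [der_update, if_neg hij, sub_zero]
  · have h0 := der_affine T v i x (x i) (x i + x j) c a
    have e1 : (x i : Fin N → K) + c • ((x i + x j : Fin N → K) - x i) = x i + c • x j := by
      rw [add_sub_cancel_left]
    rw [e1, update_eq_self] at h0
    have h1 := der_affine T v i x 0 (x i) 1 a
    have h2 := bl_apply T hvi x a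
    have h3 : der T v (update x i (x i + x j)) a = der T v x a + der T v (update x i (x j)) a := by
      rw [← h2, ← h2, map_add, h2, update_eq_self]
    rw [h3, add_sub_cancel_left] at h0
    rw [h0]
    by_cases hvj : v = j
    · subst hvj
      rw [if_pos rfl, der_swap hT hij, smul_neg, sub_eq_add_neg]
    · rw [if_neg hvj, der_same hT hij hvi hvj, smul_zero, add_zero, sub_zero]

theorem GG_trans {T : Fin k → Ten (cN V N) K} (hT : ∀ i, Alt (T i)) {i j : V} (hij : i ≠ j)
    {x : V → Fin N → K} (c : K) (h : GG T x) : GG T (update x i (x i + c • x j)) := by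
  unfold GG at h ⊢
  rw [Fintype.linearIndependent_iff] at h ⊢
  intro s hs
  have h1 := h (fun p => s p - if p.1 = i then c * s (j, p.2) else 0) (by
    rw [Fintype.sum_prod_type] at hs ⊢
    simp only [der_trans hT hij] at hs
    simp only [smul_sub, sub_smul, Finset.sum_sub_distrib] at hs ⊢
    have e1 : ∑ v : V, ∑ a : Fin k, s (v, a) • (if v = j then c • (der T i x a : Fin N → K) else 0) =
        ∑ a : Fin k, s (j, a) • (c • (der T i x a : Fin N → K)) := by
      rw [Finset.sum_eq_single j]
      · simp
      · intro b _ hb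
        simp [hb]
      · intro hj
        exact absurd (Finset.mem_univ j) hj
    have e2 : ∑ v : V, ∑ a : Fin k, (if v = i then c * s (j, a) else 0) • (der T v x a : Fin N → K) =
        ∑ a : Fin k, s (j, a) • (c • (der T i x a : Fin N → K)) := by
      rw [Finset.sum_eq_single i]
      · refine Finset.sum_congr rfl fun a _ => ?_
        rw [if_pos rfl, smul_smul, mul_comm]
      · intro b _ hb
        simp [hb]
      · intro hj
        exact absurd (Finset.mem_univ i) hj
    rw [e1] at hs
    rw [e2]
    exact hs)
  have h2 : ∀ a, s (j, a) = 0 := by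
    intro a
    have h3 := h1 (j, a)
    simp only [hij.symm, if_false, sub_zero] at h3
    exact h3
  rintro ⟨v, a⟩
  have h3 := h1 (v, a)
  simp only [h2, mul_zero, ite_self, sub_zero] at h3
  exact h3

theorem GG_diag {T : Fin k → Ten (cN V N) K} {D : V → K} (hD : ∀ v, D v ≠ 0)
    {x : V → Fin N → K} (h : GG T x) : GG T (fun v => D v • x v) := by
  have hu : ∀ v : V, (∏ u, update D v 1 u) ≠ 0 := by
    intro v
    refine Finset.prod_ne_zero_iff.2 fun u _ => ?_
    by_cases hu : u = v
    · rw [hu, update_self]
      exact one_ne_zero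
    · rw [update_of_ne hu]
      exact hD u
  have e : (fun p : V × Fin k => (der T p.1 (fun v => D v • x v) p.2 : Fin N → K)) =
      fun p => (Units.mk0 _ (hu p.1)) • (der T p.1 x p.2 : Fin N → K) := by
    funext p l
    exact der_smul T p.1 D x p.2 l
  unfold GG
  rw [e]
  exact h.units_smul fun p : V × Fin k => Units.mk0 _ (hu p.1)

theorem GG_frame {T : Fin k → Ten (cN V N) K} (hT : ∀ i, Alt (T i)) {x x' : V → Fin N → K}
    (h : Eqf x x') (hx : GG T x) : GG T x' := by
  obtain ⟨g, hg, rfl⟩ := h
  revert x
  refine Matrix.diagonal_transvection_induction_of_det_ne_zero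
    (fun g : Matrix V V K => ∀ {x : V → Fin N → K}, GG T x → GG T (ga g x)) g hg ?_ ?_ ?_
  · intro D hD x hx
    have e : ga (Matrix.diagonal D) x = fun v => D v • x v := by
      funext v
      unfold ga
      rw [Finset.sum_eq_single v]
      · rw [Matrix.diagonal_apply_eq]
      · intro v' _ h
        rw [Matrix.diagonal_apply_ne _ h.symm, zero_smul]
      · intro h
        exact absurd (Finset.mem_univ v) h
    rw [e]
    rw [Matrix.det_diagonal] at hD
    exact GG_diag (fun v => (Finset.prod_ne_zero_iff.1 hD) v (Finset.mem_univ v)) hx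
  · intro t x hx
    have e : ga t.toMatrix x = update x t.i (x t.i + t.c • x t.j) := by
      funext v
      unfold ga
      show ∑ v', (Matrix.transvection t.i t.j t.c) v v' • x v' = _
      unfold Matrix.transvection
      simp only [Matrix.add_apply, add_smul, Finset.sum_add_distrib]
      have e1 : ∑ v', (1 : Matrix V V K) v v' • x v' = x v := congrFun (ga_one x) v
      rw [e1]
      by_cases hv : v = t.i
      · subst hv
        rw [update_self]
        congr 1
        rw [Finset.sum_eq_single t.j]
        · rw [Matrix.single_apply_same]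
        · intro b _ hb
          rw [Matrix.single_apply_of_col_ne _ _ hb.symm, zero_smul]
        · intro h
          exact absurd (Finset.mem_univ _) h
      · rw [update_of_ne hv]
        have e2 : ∑ v', (Matrix.single t.i t.j t.c) v v' • x v' = 0 := by
          refine Finset.sum_eq_zero fun b _ => ?_
          rw [Matrix.single_apply_of_row_ne (Ne.symm hv), zero_smul]
        rw [e2, add_zero]
    rw [e]
    exact GG_trans hT t.hij t.c hx
  · intro A B _ _ hA hB x hx
    rw [ga_mul]
    exact hA (hB hx)

/-- The vectors of a family in the open set are independent. -/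
theorem li_of_GG [Nontrivial V] {T : Fin k → Ten (cN V N) K} (hT : ∀ i, Alt (T i)) (hk : 1 ≤ k)
    {x : V → Fin N → K} (h : GG T x) : LinearIndependent K x := by
  by_contra hcon
  rw [Fintype.linearIndependent_iff] at hcon
  push Not at hcon
  obtain ⟨a, ha, v₀, hv₀⟩ := hcon
  obtain ⟨t, ht⟩ := exists_ne v₀
  set i : Fin k := ⟨0, hk⟩
  have h1 : bl T t v₀ x i (∑ s, a s • x s) = 0 := by rw [ha, map_zero]
  rw [map_sum] at h1
  have h2 : ∑ s, (bl T t v₀ x i) (a s • x s) =
      a v₀ • (der T t x i : Fin N → K) - a t • (der T v₀ x i : Fin N → K) := by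
    rw [← Finset.add_sum_erase _ _ (Finset.mem_univ v₀), ← Finset.add_sum_erase
      (Finset.univ.erase v₀) _ (Finset.mem_erase.2 ⟨ht, Finset.mem_univ t⟩)]
    rw [Finset.sum_eq_zero (s := (Finset.univ.erase v₀).erase t), add_zero, map_smul, map_smul,
      bl_apply T ht, bl_apply T ht, update_eq_self, der_swap hT ht.symm, smul_neg,
      sub_eq_add_neg]
    intro s hs
    rw [Finset.mem_erase, Finset.mem_erase] at hs
    rw [map_smul, bl_apply T ht, der_same hT hs.2.1.symm ht (Ne.symm hs.1), smul_zero]
  rw [h2] at h1
  have hinj : Function.Injective ![((t, i) : V × Fin k), (v₀, i)] := by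
    intro b c hbc
    fin_cases b <;> fin_cases c
    · rfl
    · exact absurd (congrArg Prod.fst hbc) ht
    · exact absurd (congrArg Prod.fst hbc) ht.symm
    · rfl
  have h5 := LinearIndependent.comp h _ hinj
  have e : (fun p : V × Fin k => (der T p.1 x p.2 : Fin N → K)) ∘ ![((t, i) : V × Fin k), (v₀, i)] =
      ![(der T t x i : Fin N → K), der T v₀ x i] := by
    funext b
    fin_cases b <;> rfl
  have h6 : LinearIndependent K ![(der T t x i : Fin N → K), der T v₀ x i] := by
    rw [← e]
    exact h5
  have h3 := LinearIndependent.pair_iff.1 h6 (a v₀) (-(a t)) (by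
      rw [neg_smul, ← sub_eq_add_neg]
      exact h1)
  exact hv₀ h3.1

end Pool.Agent.L5helper6.GG
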