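import Pool.Agent.L5helper6.GG.Pts
import Pool.Agent.L5helper6.GG.Exi
import Pool.Agent.L5helper6.BF.Glue

/-!
The main theorem.
-/

namespace Pool.Agent.L5helper6.GG

open scoped Classical
open NumberField Module Function
open Pool.Agent Pool.Agent.N852.GR Pool.Agent.L5helper6.BF

set_option linter.unusedSectionVars false

variable {F : Type} [Field F] [NumberField F]
variable {V : Type} [Fintype V] [DecidableEq V] {N k : ℕ}

/-- The rank condition for forms over `F`. -/
def RCS (T : Fin k → Ten (cN V N) F) (R : ℕ) : Prop :=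
  ∀ σ : F →+* ℂ, ∀ (v : V) (x : V → Fin N → ℂ),
    LinearIndependent ℂ (fun s : {t : V // t ≠ v} => x s.1) →
      SRk (fun i j => σ (T i j)) v R x

theorem li_map (σ : F →+* ℂ) {S : Type} {x : S → Fin N → F} (h : LinearIndependent F x) :
    LinearIndependent ℂ fun (s : S) (l : Fin N) => σ (x s l) := by
  letI := σ.toAlgebra
  have h1 := (linearIndependent_algebraMap_comp_iff (R := F) (S := ℂ) (v := x)).2 h
  exact h1

theorem SRk_of {T : Fin k → Ten (cN V N) F} {R : ℕ} (h : RCS T R) (v : V) {x : V → Fin N → F}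
    (hx : LinearIndependent F (fun s : {t : V // t ≠ v} => x s.1)) : SRk T v R x := by
  obtain ⟨σ⟩ : Nonempty (F →+* ℂ) := inferInstance
  intro c hc
  have h1 := h σ v (fun t l => σ (x t l)) (li_map σ hx) (fun t i => σ (c t i)) (by
    intro h0
    apply hc
    funext t i
    have := congrFun (congrFun h0 t) i
    simpa using this)
  refine (h1.trans (le_of_eq ?_)).trans (rank_map_le' σ _)
  congr 1
  ext l l'
  rw [Matrix.map_apply, Matrix.sum_apply, Matrix.sum_apply, map_sum]
  refine Finset.sum_congr rfl fun t _ => ?_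
  rw [Matrix.sum_apply, Matrix.sum_apply, map_sum]
  refine Finset.sum_congr rfl fun i _ => ?_
  rw [Matrix.smul_apply, Matrix.smul_apply, Matrix.of_apply, Matrix.of_apply, smul_eq_mul,
    smul_eq_mul, map_mul]
  congr 1
  exact mt_map σ T t.1 v x i l l'

/-- An independent family has an extension by one vector. -/
theorem exists_ext {K : Type} [Field K] {u v : V} (huv : u ≠ v) (hN : Fintype.card V ≤ N)
    {x : V → Fin N → K} (hx : LinearIndependent K (fun s : Sx u v => x s.1)) :
    ∃ z : Fin N → K, LinearIndependent K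
      (fun s : {t : V // t ≠ v} => (update x u z : V → Fin N → K) s.1) := by
  have h1 : finrank K (Submodule.span K (Set.range fun s : Sx u v => x s.1)) < N := by
    have h2 := finrank_range_le_card (R := K) (fun s : Sx u v => x s.1)
    have h3 : Fintype.card (Sx u v) < Fintype.card V :=
      Fintype.card_subtype_lt (x := u) (by simp)
    unfold Set.finrank at h2
    omega
  obtain ⟨z, hz⟩ : ∃ z : Fin N → K,
      z ∉ Submodule.span K (Set.range fun s : Sx u v => x s.1) := by
    by_contra hcon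
    push Not at hcon
    have h2 : Submodule.span K (Set.range fun s : Sx u v => x s.1) = ⊤ :=
      Submodule.eq_top_iff'.2 hcon
    rw [h2, finrank_top, finrank_fin_fun] at h1
    exact lt_irrefl _ h1
  refine ⟨z, ?_⟩
  have h2 : LinearIndependent K (fun o : Option (Sx u v) =>
      (o.casesOn' z fun s => x s.1 : Fin N → K)) :=
    (linearIndependent_option' (v := fun s : Sx u v => x s.1)).2 ⟨hx, hz⟩
  let φ : {t : V // t ≠ v} → Option (Sx u v) := fun t =>
    if h : t.1 = u then none else some ⟨t.1, h, t.2⟩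
  have hφ : Injective φ := by
    intro a b hab
    simp only [φ] at hab
    by_cases ha : a.1 = u <;> by_cases hb : b.1 = u
    · exact Subtype.ext (ha.trans hb.symm)
    · rw [dif_pos ha, dif_neg hb] at hab
      exact absurd hab (by simp)
    · rw [dif_neg ha, dif_pos hb] at hab
      exact absurd hab (by simp)
    · rw [dif_neg ha, dif_neg hb] at hab
      have h3 := Option.some_injective _ hab
      have h4 : a.1 = b.1 := congrArg (fun q : Sx u v => q.1) h3
      exact Subtype.ext h4
  have h3 := h2.comp φ hφ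
  have e : (fun o : Option (Sx u v) => (o.casesOn' z fun s => x s.1 : Fin N → K)) ∘ φ =
      fun s : {t : V // t ≠ v} => (update x u z : V → Fin N → K) s.1 := by
    funext t
    rw [comp_apply]
    simp only [φ]
    by_cases ht : t.1 = u
    · rw [dif_pos ht, ht, update_self]
      rfl
    · rw [dif_neg ht, update_of_ne ht]
      rfl
  rw [← e]
  exact h3

theorem RkAt_of {T : Fin k → Ten (cN V N) F} {R : ℕ} (h : RCS T R) (hN : Fintype.card V ≤ N)
    (σ : F →+* ℂ) {u v : V} (huv : u ≠ v) {x : V → Fin N → ℂ}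
    (hx : LinearIndependent ℂ (fun s : Sx u v => x s.1)) :
    RkAt (fun i j => σ (T i j)) u v R (x : Tup (cN V N) ℂ) := by
  obtain ⟨z, hz⟩ := exists_ext huv hN hx
  have h1 : RkF (fun i j => σ (T i j)) u v R (update x u z : V → Fin N → ℂ) :=
    rkF_of huv (h σ v _ hz)
  intro s hs
  have h2 := h1 s hs
  have h3 := mt_update_left (n := cN V N) (fun i j => σ (T i j)) u v x z huv
  refine h2.trans (le_of_eq ?_)
  congr 1
  refine Finset.sum_congr rfl fun i _ => ?_
  congr 1
  ext l l'
  exact congrFun (congrFun (congrFun h3 i) l) l'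

theorem RCS_mono {T : Fin k → Ten (cN V N) F} {R R' : ℕ} (h : RCS T R) (hR : R' ≤ R) :
    RCS T R' := fun σ v x hx c hc => hR.trans (h σ v x hx c hc)

theorem exists_int' (T : Fin k → Ten (cN V N) F) :
    ∃ (c : F) (T' : Fin k → Ten (cN V N) (𝓞 F)), c ≠ 0 ∧ tF T' = fun i j => c * T i j := by
  obtain ⟨b, hb⟩ := IsLocalization.exist_integer_multiples_of_finite (nonZeroDivisors (𝓞 F))
    (fun p : Fin k × (∀ v : V, Fin (cN V N v)) => T p.1 p.2)
  choose g hg using hb
  refine ⟨((b : 𝓞 F) : F), fun i j => g (i, j), ?_, ?_⟩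
  · have h1 : (b : 𝓞 F) ≠ 0 := nonZeroDivisors.coe_ne_zero b
    intro h0
    apply h1
    exact_mod_cast h0
  · funext i j
    show algebraMap (𝓞 F) F (g (i, j)) = _
    rw [hg (i, j)]
    exact Algebra.smul_def _ _

theorem Inc_scale' {K : Type} [Field K] {c : K} (hc : c ≠ 0) {T : Fin k → Ten (cN V N) K}
    {x : Tup (cN V N) K} : Inc (fun i j => c * T i j) x ↔ Inc T x := by
  unfold Inc
  refine forall_congr' fun i => ?_
  rw [ev_const, mul_eq_zero]
  constructor
  · intro h
    exact h.resolve_left hc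
  · intro h
    exact Or.inr h

theorem GG_scale {K : Type} [Field K] {c : K} (hc : c ≠ 0) {T : Fin k → Ten (cN V N) K}
    {x : V → Fin N → K} : GG (fun i j => c * T i j) x ↔ GG T x := by
  unfold GG
  refine li_scale hc fun p => ?_
  funext l
  exact ev_const c (T p.2) _

theorem exists_pt [Nontrivial V] (hk : 1 ≤ k) (hN : Fintype.card V ≤ N)
    (T : Fin k → Ten (cN V N) F) (hT : ∀ i, Alt (T i))
    (hR : RCS T ((Fintype.card V + 1) * k)) :
    ∃ x : V → Fin N → F, LinearIndependent F x ∧ Inc T x ∧ GG T x := by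
  obtain ⟨x, h1, h2⟩ := exists_x hT hk hN le_rfl fun v x hx => SRk_of hR v hx
  exact ⟨x, li_of_GG hT hk h2, h1, h2⟩

/-- **The main theorem.** -/
theorem main {r : ℕ} (hr : 2 ≤ r) (hk : 1 ≤ k) (hN : r ≤ N) (T : Fin k → Ten (cN (Fin r) N) F)
    (hT : ∀ i, Alt (T i)) (hR : RCS T ((r + 1) * k)) :
    (∃ x : Fin r → Fin N → F, LinearIndependent F x ∧ Inc T x ∧ GG T x) ∧ (r + 1) * k ≤ N ∧
    ∀ ε : ℝ, 0 < ε → ∃ C : ℝ, 1 ≤ C ∧ ∀ Y : ℝ, 1 ≤ Y → ∀ {ι : Type} (S : Set ι)
        (φ : ι → Fin r → Fin N → F),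
        (∀ P ∈ S, LinearIndependent F (φ P) ∧ Inc T (φ P) ∧ GG T (φ P) ∧
          Height.mulHeight (fun p : Fin r → Fin N => dt (φ P) p) ≤ Y) →
        (∀ P ∈ S, ∀ P' ∈ S, ∀ x, Eqf (φ P) x → Eqf (φ P') x → P = P') →
        S.Finite ∧ (S.ncard : ℝ) ≤ C * Y ^ ((N : ℝ) - k + ε) := by
  have hcard : Fintype.card (Fin r) = r := Fintype.card_fin r
  have hnt : Nontrivial (Fin r) := by
    rw [← Fintype.one_lt_card_iff_nontrivial, hcard]
    omega
  obtain ⟨σ⟩ : Nonempty (F →+* ℂ) := inferInstance
  -- the dimension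
  have hdim : (r + 1) * k ≤ N := by
    obtain ⟨f⟩ : Nonempty (Fin r ↪ Fin N) := by
      rw [Function.Embedding.nonempty_iff_card_le, Fintype.card_fin, Fintype.card_fin]
      exact hN
    have hli₀ : LinearIndependent ℂ (fun v => Pi.single (f v) 1 : Fin r → Fin N → ℂ) :=
      (Pi.linearIndependent_single_one (Fin N) ℂ).comp f f.injective
    obtain ⟨v, u, hvu⟩ := exists_pair_ne (Fin r)
    have hli₁ : LinearIndependent ℂ (fun s : {t : Fin r // t ≠ v} =>
        (Pi.single (f s.1) 1 : Fin N → ℂ)) :=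
      hli₀.comp (fun s : {t : Fin r // t ≠ v} => s.1) Subtype.val_injective
    have hc1 : (fun _ _ => 1 : {t : Fin r // t ≠ v} → Fin k → ℂ) ≠ 0 := by
      intro h0
      have := congrFun (congrFun h0 ⟨u, hvu.symm⟩) ⟨0, hk⟩
      exact one_ne_zero this
    have h1 := hR σ v (fun v => Pi.single (f v) 1) hli₁ _ hc1
    exact h1.trans (Matrix.rank_le_width _)
  refine ⟨?_, hdim, ?_⟩
  · have hq1 : Fintype.card (Fin r) ≤ N := hcard.le.trans hN
    have hq2 : RCS T ((Fintype.card (Fin r) + 1) * k) := by rw [hcard]; exact hR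
    exact exists_pt hk hq1 T hT hq2
  · intro ε hε
    obtain ⟨c, T', hc, hT'⟩ := exists_int' T
    have hAs : ∀ i, Alt (T' i) := by
      intro i u v huv j
      have h1 : ((T' i (j ∘ Equiv.swap u v) : 𝓞 F) : F) = -((T' i j : 𝓞 F) : F) := by
        have e1 : ((T' i (j ∘ Equiv.swap u v) : 𝓞 F) : F) = c * T i (j ∘ Equiv.swap u v) :=
          congrFun (congrFun hT' i) _
        have e2 : ((T' i j : 𝓞 F) : F) = c * T i j := congrFun (congrFun hT' i) _
        rw [e1, e2, hT i u v huv j]
        ring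
      have h2 : ((T' i (j ∘ Equiv.swap u v) : 𝓞 F) : F) = ((-T' i j : 𝓞 F) : F) := by
        rw [h1]
        exact (map_neg (algebraMap (𝓞 F) F) _).symm
      exact_mod_cast h2
    have hRR : k * Fintype.card (Fin r) + 1 ≤ (r + 1) * k := by
      rw [hcard]
      nlinarith
    have hRC : RC T' (k * Fintype.card (Fin r) + 1) := by
      intro σ u v huv x hx
      have h1 := RkAt_of (RCS_mono hR hRR) (by rw [hcard]; exact hN) σ huv hx
      have h2 := RkAt_scale (c := σ c) (by simpa using hc) h1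
      have e : ts T' σ = fun i j => σ c * σ (T i j) := by
        funext i j
        show σ (T' i j : F) = _
        have e1 : ((T' i j : 𝓞 F) : F) = c * T i j := congrFun (congrFun hT' i) _
        rw [e1, map_mul]
      rw [e]
      exact h2
    have hbb := bb T' hAs hk _ hRC (hRR.trans hdim)
    obtain ⟨D, e, C₀, hIt⟩ := eng T' (by rw [hcard]; exact hr) (fun v => hRR.trans hdim) hbb
    have hkN : k ≤ N := by nlinarith
    obtain ⟨C, hC, h⟩ := count_pts (by omega) T' hAs (fun ε hε => up_eps hIt hε) (l := 1)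
      one_pos (α := (N : ℝ) - k) (by
        have : (k : ℝ) ≤ N := by exact_mod_cast hkN
        linarith) (by rw [mul_one, Nat.cast_sub hkN]) hε
    refine ⟨C, hC, fun Y hY ι S φ hS hinj => h Y hY S φ (fun P hP => ?_) hinj⟩
    obtain ⟨h1, h3, h4, h5⟩ := hS P hP
    rw [hT']
    exact ⟨h1, (Inc_scale' hc).2 h3, (GG_scale hc).2 h4, by rw [Real.rpow_one]; exact h5⟩

end Pool.Agent.L5helper6.GG
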