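import Pool.Agent.L5helper6.GG.Pg

/-!
Minimal bases of subspaces over a number field: existence, and the minors at the infinite places.
-/

namespace Pool.Agent.L5helper6.GG

open scoped Classical
open NumberField Module Function
open Pool.Agent Pool.Agent.N852.GR Pool.Agent.L5helper6.BF

set_option linter.unusedSectionVars false

variable {F : Type} [Field F] [NumberField F] {N : ℕ}

/-- The span of the first vectors. -/
def Sp (y : ℕ → Fin N → 𝓞 F) (i : ℕ) : Submodule F (Fin N → F) :=
  Submodule.span F ((fun j => co (y j)) '' Set.Iio i)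

/-- Successive minimal vectors. -/
def Mfr (P : Submodule F (Fin N → F)) (m : ℕ) (y : ℕ → Fin N → 𝓞 F) : Prop :=
  ∀ i, i < m → co (y i) ∈ P ∧ co (y i) ∉ Sp y i ∧
    ∀ z : Fin N → 𝓞 F, co z ∈ P → co z ∉ Sp y i → ‖io (y i)‖ ≤ ‖io z‖

theorem Sp_finrank (y : ℕ → Fin N → 𝓞 F) (m : ℕ) : finrank F (Sp y m) ≤ m := by
  have e : (fun j => co (y j)) '' Set.Iio m = Set.range fun j : Fin m => co (y j) := by
    ext v
    constructor
    · rintro ⟨j, hj, rfl⟩
      exact ⟨⟨j, hj⟩, rfl⟩
    · rintro ⟨j, rfl⟩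
      exact ⟨j, j.2, rfl⟩
  unfold Sp
  rw [e]
  have := finrank_range_le_card (R := F) fun j : Fin m => co (y j)
  rwa [Fintype.card_fin] at this

theorem Sp_congr {y y' : ℕ → Fin N → 𝓞 F} {i : ℕ} (h : ∀ j, j < i → y' j = y j) :
    Sp y' i = Sp y i := by
  unfold Sp
  congr 1
  refine Set.image_congr fun j hj => ?_
  rw [h j hj]

theorem Sp_mono (y : ℕ → Fin N → 𝓞 F) {i j : ℕ} (h : i ≤ j) : Sp y i ≤ Sp y j :=
  Submodule.span_mono (Set.image_mono (Set.Iio_subset_Iio h))

theorem mem_Sp (y : ℕ → Fin N → 𝓞 F) {i j : ℕ} (h : i < j) : co (y i) ∈ Sp y j :=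
  Submodule.subset_span ⟨i, h, rfl⟩

theorem exists_mfr (P : Submodule F (Fin N → F)) (m : ℕ) (hP : m ≤ finrank F P) :
    ∃ y, Mfr P m y := by
  induction m with
  | zero => exact ⟨fun _ => 0, fun i hi => absurd hi (Nat.not_lt_zero i)⟩
  | succ m ih =>
    obtain ⟨y, hy⟩ := ih (by omega)
    obtain ⟨v, hv1, hv2⟩ : ∃ v ∈ P, v ∉ Sp y m := by
      by_contra hcon
      push Not at hcon
      have h1 := Submodule.finrank_mono (show P ≤ Sp y m from hcon)
      have h2 := Sp_finrank y m
      omega
    obtain ⟨c, x, hc, hx⟩ := Red_int v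
    obtain ⟨a, ha, hmin⟩ := Red_min ((latP F N).2.1)
      {z : Fin N → 𝓞 F | co z ∈ P ∧ co z ∉ Sp y m} ⟨x, by
        rw [Set.mem_ofPred_eq, hx]
        exact ⟨P.smul_mem _ hv1, fun h => hv2 ((Submodule.smul_mem_iff _ hc).1 h)⟩⟩
    refine ⟨update y m a, fun i hi => ?_⟩
    have hSp : Sp (update y m a) i = Sp y i :=
      Sp_congr fun j hj => update_of_ne (by omega) _ _
    rw [hSp]
    by_cases him : i = m
    · subst him
      rw [update_self]
      exact ⟨ha.1, ha.2, fun z h1 h2 => hmin z ⟨h1, h2⟩⟩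
    · rw [update_of_ne him]
      exact hy i (by omega)

variable {P : Submodule F (Fin N → F)} {m : ℕ} {y : ℕ → Fin N → 𝓞 F}

theorem mfr_mono (h : Mfr P m y) {i j : ℕ} (hij : i ≤ j) (hj : j < m) :
    ‖io (y i)‖ ≤ ‖io (y j)‖ :=
  (h i (by omega)).2.2 (y j) (h j hj).1 fun h1 => (h j hj).2.1 (Sp_mono y hij h1)

theorem mfr_ne (h : Mfr P m y) {i : ℕ} (hi : i < m) : y i ≠ 0 := by
  intro h0
  apply (h i hi).2.1
  rw [h0, co_zero']
  exact Submodule.zero_mem _

theorem mfr_pos (h : Mfr P m y) {i : ℕ} (hi : i < m) : 0 < ‖io (y i)‖ := Ctt.io_pos (mfr_ne h hi)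

/-- A minor. -/
noncomputable def mn {K : Type} [Field K] (y : ℕ → Fin N → K) {s : ℕ} (p : Fin s → Fin N) : K :=
  (Matrix.of fun i l : Fin s => y i (p l)).det

/-- The cofactors. -/
noncomputable def cf {K : Type} [Field K] (y : ℕ → Fin N → K) {s : ℕ} (p : Fin s → Fin N)
    (i : Fin s) : K :=
  (-1) ^ ((i : ℕ) + s) *
    (Matrix.of fun a b : Fin s => y ((i.castSucc.succAbove a : Fin (s + 1)) : ℕ) (p b)).det

theorem mn_snoc {K : Type} [Field K] (y : ℕ → Fin N → K) {s : ℕ} (p : Fin s → Fin N)
    (q : Fin N) : mn y (Fin.snoc p q : Fin (s + 1) → Fin N) =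
      mn y p * y s q + ∑ i : Fin s, cf y p i * y i q := by
  unfold mn
  rw [Matrix.det_succ_column _ (Fin.last s), Fin.sum_univ_castSucc, add_comm]
  congr 1
  · have e1 : ((-1 : K)) ^ (((Fin.last s : Fin (s + 1)) : ℕ) + ((Fin.last s : Fin (s + 1)) : ℕ)) =
        1 := by
      rw [Fin.val_last]
      exact Even.neg_one_pow ⟨s, rfl⟩
    rw [e1, one_mul, mul_comm]
    congr 1
    · congr 1
      ext a b
      simp [Matrix.submatrix_apply]
    · simp
  · refine Finset.sum_congr rfl fun i _ => ?_
    unfold cf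
    have e : (Matrix.of fun i l : Fin (s + 1) =>
        y i ((Fin.snoc p q : Fin (s + 1) → Fin N) l)) i.castSucc (Fin.last s) = y i q := by
      simp
    rw [e]
    have e2 : ((Matrix.of fun i l : Fin (s + 1) =>
        y i ((Fin.snoc p q : Fin (s + 1) → Fin N) l)).submatrix i.castSucc.succAbove
        (Fin.last s).succAbove) =
        Matrix.of fun a b : Fin s => y ((i.castSucc.succAbove a : Fin (s + 1)) : ℕ) (p b) := by
      ext a b
      simp [Matrix.submatrix_apply]
    rw [e2]
    have e3 : (((i.castSucc : Fin (s + 1)) : ℕ) + ((Fin.last s : Fin (s + 1)) : ℕ)) =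
        (i : ℕ) + s := by simp
    rw [e3]
    ring

/-- A combination with a nonzero coefficient is not in the span of the first vectors. -/
theorem not_Sp (h : Mfr P m y) {s : ℕ} (hs : s < m) {u : F} (hu : u ≠ 0) (c : Fin s → F) :
    u • co (y s) + ∑ i : Fin s, c i • co (y i) ∉ Sp y s := by
  intro h1
  apply (h s hs).2.1
  have h2 : ∑ i : Fin s, c i • co (y i) ∈ Sp y s :=
    Submodule.sum_mem _ fun i _ => Submodule.smul_mem _ _ (mem_Sp y i.2)
  have h3 := Submodule.sub_mem _ h1 h2
  rw [add_sub_cancel_right] at h3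
  exact (Submodule.smul_mem_iff _ hu).1 h3

theorem in_P (h : Mfr P m y) {s : ℕ} (hs : s < m) (u : F) (c : Fin s → F) :
    u • co (y s) + ∑ i : Fin s, c i • co (y i) ∈ P :=
  P.add_mem (P.smul_mem _ (h s hs).1)
    (Submodule.sum_mem _ fun i _ => P.smul_mem _ (h i (by omega)).1)

theorem tri_sum (w : InfinitePlace F) {ι : Type} (s : Finset ι) (f : ι → F) :
    w (∑ i ∈ s, f i) ≤ ∑ i ∈ s, w (f i) := by
  induction s using Finset.induction_on with
  | empty => simp
  | insert a s ha ih =>
    rw [Finset.sum_insert ha, Finset.sum_insert ha]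
    exact (Arc.tri w _ _).trans (by linarith)

/-- **The minors at the infinite places.** -/
theorem arc (F : Type) [Field F] [NumberField F] (s : ℕ) : ∃ κ : ℝ, 0 < κ ∧
    ∀ (N m : ℕ) (P : Submodule F (Fin N → F)) (y : ℕ → Fin N → 𝓞 F), s ≤ m → Mfr P m y →
      ∀ w₀ : InfinitePlace F, ∃ p : Fin s → Fin N,
        κ * ∏ i : Fin s, ‖io (y i)‖ ≤ w₀ (mn (fun i => co (y i)) p) := by
  induction s with
  | zero =>
    refine ⟨1, one_pos, fun N m P y _ _ w₀ => ⟨fun i => i.elim0, ?_⟩⟩
    simp [mn]
  | succ s ih =>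
    obtain ⟨κ, hκ, ih⟩ := ih
    set δ : ℝ := 1 / (4 * (s + 1)) with hδ
    have hδ0 : 0 < δ := by positivity
    obtain ⟨M0, hM0⟩ := pig1s F s δ hδ0
    set M := max M0 1 with hM
    have hM1 : 1 ≤ M := le_max_right _ _
    have hMp : 0 < M := by linarith
    refine ⟨κ / (4 * M), by positivity, fun N m P y hsm hy w₀ => ?_⟩
    by_contra hcon
    push Not at hcon
    obtain ⟨p, hp⟩ := ih N m P y (by omega) hy w₀
    set D := mn (fun i => co (y i)) p with hD
    have hpos : ∀ i : Fin s, 0 < ‖io (y i)‖ := fun i => mfr_pos hy (by omega)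
    have hB : 0 < ‖io (y s)‖ := mfr_pos hy (by omega)
    have hprod : 0 < ∏ i : Fin s, ‖io (y i)‖ := Finset.prod_pos fun i _ => hpos i
    have hDw : 0 < w₀ D := lt_of_lt_of_le (mul_pos hκ hprod) hp
    have hD0 : D ≠ 0 := by
      intro h0
      rw [h0, map_zero] at hDw
      exact lt_irrefl _ hDw
    obtain ⟨α, γ, hα, hα1, hγ1, hγ2⟩ := hM0 w₀ (fun i => -(cf (fun i => co (y i)) p i) / D)
    have hαF : (α : F) ≠ 0 := by
      intro h
      apply hα
      exact_mod_cast h
    set v : Fin N → 𝓞 F := fun q => α * y s q - ∑ i : Fin s, γ i * y i q with hv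
    have hve : ∀ q, (v q : F) = (α : F) * co (y s) q - ∑ i : Fin s, (γ i : F) * co (y i) q := by
      intro q
      show algebraMap (𝓞 F) F (α * y s q - ∑ i : Fin s, γ i * y i q) = _
      rw [map_sub, map_mul, map_sum]
      congr 1
    have hco : co v = (α : F) • co (y s) + ∑ i : Fin s, (-(γ i : F)) • co (y i) := by
      funext q
      show (v q : F) = _
      rw [hve, Pi.add_apply, Pi.smul_apply, Finset.sum_apply, smul_eq_mul, sub_eq_add_neg,
        ← Finset.sum_neg_distrib]
      congr 1
      refine Finset.sum_congr rfl fun i _ => ?_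
      rw [Pi.smul_apply, smul_eq_mul]
      ring
    have hmin : ‖io (y s)‖ ≤ ‖io v‖ := (hy s (by omega)).2.2 v (by
      rw [hco]
      exact in_P hy (by omega) _ _) (by
      rw [hco]
      exact not_Sp hy (by omega) hαF _)
    have hle : ∀ (i : Fin s) (q : Fin N) (w : InfinitePlace F), w (co (y i) q) ≤ ‖io (y s)‖ :=
      fun i q w => (Arc.le_io (y i) q w).trans (mfr_mono hy (by omega) (by omega))
    have hsd : (s : ℝ) * δ ≤ 1 / 4 := by
      rw [hδ]
      rw [mul_one_div, div_le_div_iff₀ (by positivity) (by norm_num)]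
      linarith
    have hd4 : δ ≤ 1 / 4 := by
      rw [hδ, div_le_div_iff₀ (by positivity) (by norm_num)]
      have : (0 : ℝ) ≤ s := Nat.cast_nonneg _
      linarith
    have hlt : ‖io v‖ ≤ 3 / 4 * ‖io (y s)‖ := by
      refine Ctt.io_le v _ (by positivity) fun q w => ?_
      by_cases hw : w = w₀
      · subst hw
        have h1 := mn_snoc (fun i => co (y i)) p q
        have h2 : (v q : F) = (α : F) * (mn (fun i => co (y i))
            (Fin.snoc p q : Fin (s + 1) → Fin N) / D) +
            ∑ i : Fin s, ((α : F) * (-(cf (fun i => co (y i)) p i) / D) - γ i) * co (y i) q := by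
          rw [hve, h1, ← hD]
          simp only [sub_mul, Finset.sum_sub_distrib]
          have h3 : ∑ i : Fin s, (α : F) * (-(cf (fun i => co (y i)) p i) / D) * co (y i) q =
              -((α : F) / D) * ∑ i : Fin s, cf (fun i => co (y i)) p i * co (y i) q := by
            rw [Finset.mul_sum]
            refine Finset.sum_congr rfl fun i _ => ?_
            ring
          rw [h3]
          field_simp
          ring
        rw [h2]
        refine (Arc.tri w _ _).trans ?_
        have h4 : w ((α : F) * (mn (fun i => co (y i)) (Fin.snoc p q : Fin (s + 1) → Fin N) / D)) ≤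
            1 / 4 * ‖io (y s)‖ := by
          rw [map_mul, map_div₀]
          have h5 := hcon (Fin.snoc p q)
          rw [Fin.prod_univ_castSucc] at h5
          have h6 : w (mn (fun i => co (y i)) (Fin.snoc p q : Fin (s + 1) → Fin N)) ≤
              κ / (4 * M) * ((∏ i : Fin s, ‖io (y i)‖) * ‖io (y s)‖) := h5.le
          have h7 : w (mn (fun i => co (y i)) (Fin.snoc p q : Fin (s + 1) → Fin N)) / w D ≤
              ‖io (y s)‖ / (4 * M) := by
            rw [div_le_iff₀ hDw]
            refine h6.trans ?_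
            calc κ / (4 * M) * ((∏ i : Fin s, ‖io (y i)‖) * ‖io (y s)‖)
                = ‖io (y s)‖ / (4 * M) * (κ * ∏ i : Fin s, ‖io (y i)‖) := by ring
              _ ≤ ‖io (y s)‖ / (4 * M) * w D := by
                  refine mul_le_mul_of_nonneg_left hp (by positivity)
          calc w (α : F) * (w (mn (fun i => co (y i)) (Fin.snoc p q : Fin (s + 1) → Fin N)) / w D)
              ≤ M * (‖io (y s)‖ / (4 * M)) :=
                mul_le_mul (hα1.trans (le_max_left _ _)) h7
                  (div_nonneg (apply_nonneg _ _) (apply_nonneg _ _)) hMp.le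
            _ = 1 / 4 * ‖io (y s)‖ := by field_simp
        have h8 : w (∑ i : Fin s, ((α : F) * (-(cf (fun i => co (y i)) p i) / D) - γ i) *
            co (y i) q) ≤ 1 / 4 * ‖io (y s)‖ := by
          refine (tri_sum w _ _).trans ?_
          calc ∑ i : Fin s, w (((α : F) * (-(cf (fun i => co (y i)) p i) / D) - γ i) *
              co (y i) q) ≤ ∑ _i : Fin s, δ * ‖io (y s)‖ := by
                refine Finset.sum_le_sum fun i _ => ?_
                rw [map_mul]
                exact mul_le_mul (hγ1 i) (hle i q w) (apply_nonneg _ _) hδ0.le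
            _ = s * δ * ‖io (y s)‖ := by
                rw [Finset.sum_const, Finset.card_univ, Fintype.card_fin, nsmul_eq_mul]
                ring
            _ ≤ _ := mul_le_mul_of_nonneg_right hsd hB.le
        linarith
      · rw [hve]
        refine (Arc.tri' w _ _).trans ?_
        have h4 : w ((α : F) * co (y s) q) ≤ 1 / 4 * ‖io (y s)‖ := by
          rw [map_mul]
          exact mul_le_mul ((hγ2 w hw).1.trans hd4) (Arc.le_io (y s) q w) (apply_nonneg _ _)
            (by norm_num)
        have h8 : w (∑ i : Fin s, (γ i : F) * co (y i) q) ≤ 1 / 4 * ‖io (y s)‖ := by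
          refine (tri_sum w _ _).trans ?_
          calc ∑ i : Fin s, w ((γ i : F) * co (y i) q) ≤ ∑ _i : Fin s, δ * ‖io (y s)‖ := by
                refine Finset.sum_le_sum fun i _ => ?_
                rw [map_mul]
                exact mul_le_mul ((hγ2 w hw).2 i) (hle i q w) (apply_nonneg _ _) hδ0.le
            _ = s * δ * ‖io (y s)‖ := by
                rw [Finset.sum_const, Finset.card_univ, Fintype.card_fin, nsmul_eq_mul]
                ring
            _ ≤ _ := mul_le_mul_of_nonneg_right hsd hB.le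
        linarith
    linarith

end Pool.Agent.L5helper6.GG
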