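import Pool.Agent.L5helper6.BF.Bal

/-!
Simultaneous approximation in a number field (after `Pool.Agent.N852.GR.Pig1`, `Pig2`).
-/

namespace Pool.Agent.L5helper6.GG

open scoped Classical
open NumberField Module Function
open Pool.Agent Pool.Agent.N852.GR

set_option linter.unusedSectionVars false

/-- Pigeonhole in `(E / lattice) ^ m`. -/
theorem pigs (F : Type) [Field F] [NumberField F] (m : ℕ) (ε : ℝ) (hε : 0 < ε) : ∃ K : ℕ,
    ∀ e : ℕ → Fin m → EE F, ∃ i j : ℕ, i < j ∧ j ≤ K ∧ ∃ γ : Fin m → 𝓞 F, ∀ a,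
      ‖e j a - e i a - mixedEmbedding F (γ a : F)‖ ≤ ε := by
  set b := mixedEmbedding.latticeBasis F with hb
  have hc : IsCompact (Metric.closedBall (0 : EE F) (∑ i, ‖b i‖)) := isCompact_closedBall _ _
  obtain ⟨t, -, ht, htc⟩ := hc.finite_cover_balls (e := ε / 2) (by positivity)
  obtain ⟨T, hT⟩ := ht.exists_finset_coe
  have hcen : ∀ x : EE F, ∃ y ∈ T, ‖ZSpan.fract b x - y‖ < ε / 2 := by
    intro x
    have h1 : ZSpan.fract b x ∈ Metric.closedBall (0 : EE F) (∑ i, ‖b i‖) := by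
      rw [mem_closedBall_zero_iff]
      exact ZSpan.norm_fract_le b x
    obtain ⟨y, hy, hxy⟩ := Set.mem_iUnion₂.1 (htc h1)
    refine ⟨y, by rw [← Finset.mem_coe, hT]; exact hy, ?_⟩
    rwa [Metric.mem_ball, dist_eq_norm] at hxy
  choose c hcT hc using hcen
  have hfl : ∀ x y : EE F, c x = c y → ∃ γ : 𝓞 F, ‖x - y - mixedEmbedding F (γ : F)‖ ≤ ε := by
    intro x y hxy
    have h1 : ((ZSpan.floor b x : EE F) - (ZSpan.floor b y : EE F)) ∈
        Submodule.span ℤ (Set.range b) :=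
      Submodule.sub_mem _ (ZSpan.floor b x).2 (ZSpan.floor b y).2
    rw [hb, mixedEmbedding.mem_span_latticeBasis] at h1
    obtain ⟨γ, hγ⟩ : ∃ γ : 𝓞 F, mixedEmbedding F (γ : F) =
        (ZSpan.floor b x : EE F) - (ZSpan.floor b y : EE F) := by
      obtain ⟨γ, hγ⟩ := h1
      exact ⟨γ, hγ⟩
    refine ⟨γ, ?_⟩
    rw [hγ]
    have h2 := hc x
    have h3 := hc y
    rw [hxy] at h2
    rw [ZSpan.fract_apply] at h2 h3
    have e1 : x - y - ((ZSpan.floor b x : EE F) - (ZSpan.floor b y : EE F)) =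
        (x - (ZSpan.floor b x : EE F) - c y) - (y - (ZSpan.floor b y : EE F) - c y) := by abel
    rw [e1]
    refine (norm_sub_le _ _).trans ?_
    linarith
  refine ⟨T.card ^ m, fun e => ?_⟩
  obtain ⟨i, hi, j, hj, hij, he⟩ := Finset.exists_ne_map_eq_of_card_lt_of_maps_to
    (s := Finset.range (T.card ^ m + 1)) (t := Fintype.piFinset fun _ : Fin m => T)
    (f := fun j => fun a => c (e j a)) (by
      rw [Fintype.card_piFinset_const, Finset.card_range]
      omega) (by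
      intro j _
      rw [Finset.mem_coe, Fintype.mem_piFinset]
      exact fun a => hcT _)
  rw [Finset.mem_range] at hi hj
  have he1 : ∀ a, c (e i a) = c (e j a) := fun a => congrFun he a
  rcases lt_or_gt_of_ne hij with h | h
  · choose γ hγ using fun a => hfl (e j a) (e i a) (he1 a).symm
    exact ⟨i, j, h, by omega, γ, hγ⟩
  · choose γ hγ using fun a => hfl (e i a) (e j a) (he1 a)
    exact ⟨j, i, h, by omega, γ, hγ⟩

theorem pig2s (F : Type) [Field F] [NumberField F] (m : ℕ) (ε : ℝ) (hε : 0 < ε) : ∃ K : ℕ,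
    ∀ s : Fin m → F, ∃ q : ℕ, 1 ≤ q ∧ q ≤ K ∧ ∃ γ : Fin m → 𝓞 F, ∀ a (w : InfinitePlace F),
      w ((q : F) * s a - γ a) ≤ ε := by
  obtain ⟨K, hK⟩ := pigs F m ε hε
  refine ⟨K, fun s => ?_⟩
  obtain ⟨i, j, hij, hj, γ, h1⟩ := hK (fun j a => mixedEmbedding F ((j : F) * s a))
  refine ⟨j - i, by omega, by omega, γ, fun a w => ?_⟩
  have e : ((j - i : ℕ) : F) * s a - γ a = (j : F) * s a - (i : F) * s a - γ a := by
    rw [Nat.cast_sub hij.le]; ring
  rw [e, ← mixedEmbedding.normAtPlace_apply, map_sub (mixedEmbedding F),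
    map_sub (mixedEmbedding F)]
  exact (Pig2.place_le _ _).trans (h1 a)

theorem pig1s (F : Type) [Field F] [NumberField F] (m : ℕ) (ε : ℝ) (hε : 0 < ε) : ∃ M : ℝ,
    ∀ (w₀ : InfinitePlace F) (τ : Fin m → F), ∃ (α : 𝓞 F) (γ : Fin m → 𝓞 F), α ≠ 0 ∧
    w₀ (α : F) ≤ M ∧ (∀ a, w₀ ((α : F) * τ a - γ a) ≤ ε) ∧
    ∀ w : InfinitePlace F, w ≠ w₀ → w (α : F) ≤ ε ∧ ∀ a, w (γ a : F) ≤ ε := by
  obtain ⟨K, hK⟩ := pigs F m ε hε
  have hδ : 0 < ε / (K + 1) := by positivity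
  choose a ha0 ha using fun w₀ : InfinitePlace F => Pig1.small w₀ (ε / (K + 1)) hδ
  refine ⟨∑ w : InfinitePlace F, K * w (a w : F), fun w₀ τ => ?_⟩
  obtain ⟨i, j, hij, hj, γ, h1⟩ := hK
    (fun j b => Pig1.pr w₀ (mixedEmbedding F ((j : F) * (a w₀ : F) * τ b)))
  have hα : (((j - i : ℕ) : 𝓞 F) * a w₀ : 𝓞 F) ≠ 0 := by
    refine mul_ne_zero ?_ (ha0 w₀)
    have : j - i ≠ 0 := by omega
    exact_mod_cast this
  have hαe : ((((j - i : ℕ) : 𝓞 F) * a w₀ : 𝓞 F) : F) = ((j - i : ℕ) : F) * (a w₀ : F) :=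
    (map_mul (algebraMap (𝓞 F) F) _ _).trans (by rw [map_natCast])
  have hwn : ∀ w : InfinitePlace F, w ((j - i : ℕ) : F) = ((j - i : ℕ) : ℝ) := by
    intro w
    rw [← w.norm_embedding_eq, map_natCast, Complex.norm_natCast]
  have hK' : ((j - i : ℕ) : ℝ) ≤ K := by
    have : j - i ≤ K := by omega
    exact_mod_cast this
  refine ⟨((j - i : ℕ) : 𝓞 F) * a w₀, γ, hα, ?_, fun b => ?_, fun w hw => ⟨?_, fun b => ?_⟩⟩
  · rw [hαe, map_mul, hwn]
    refine (mul_le_mul_of_nonneg_right hK' (apply_nonneg _ _)).trans ?_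
    exact Finset.single_le_sum (f := fun w : InfinitePlace F => (K : ℝ) * w (a w : F))
      (fun w _ => mul_nonneg (Nat.cast_nonneg _) (apply_nonneg _ _)) (Finset.mem_univ w₀)
  · have h2 := (Pig2.place_le _ w₀).trans (h1 b)
    rw [Pig1.pr_self, ← map_sub (mixedEmbedding F), ← map_sub (mixedEmbedding F),
      mixedEmbedding.normAtPlace_apply] at h2
    rw [hαe, Nat.cast_sub hij.le]
    have e : ((j : F) - (i : F)) * (a w₀ : F) * τ b - γ b =
        (j : F) * (a w₀ : F) * τ b - (i : F) * (a w₀ : F) * τ b - γ b := by ring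
    rw [e]
    exact h2
  · rw [hαe, map_mul, hwn]
    have h3 : ((j - i : ℕ) : ℝ) * w (a w₀ : F) ≤ K * (ε / (K + 1)) :=
      mul_le_mul hK' (ha w₀ w hw) (apply_nonneg _ _) (Nat.cast_nonneg _)
    refine h3.trans ?_
    rw [mul_div_assoc', div_le_iff₀ (by positivity)]
    nlinarith
  · have h2 := (Pig2.place_le _ w).trans (h1 b)
    rw [Pig1.pr_ne hw, mixedEmbedding.normAtPlace_apply] at h2
    exact h2

end Pool.Agent.L5helper6.GG
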