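import Pool.Agent.L5helper6.GG.Frm
import Pool.Agent.L5helper6.BF.Sum

/-!
From families of vectors to subspaces.
-/

namespace Pool.Agent.L5helper6.GG

open scoped Classical
open NumberField Module Function
open Pool.Agent Pool.Agent.N852.GR Pool.Agent.L5helper6.BF

set_option linter.unusedSectionVars false

variable {F : Type} [Field F] [NumberField F] {r N k : ℕ}

theorem dt_ga {V : Type} [Fintype V] [DecidableEq V] {K : Type} [Field K] (g : Matrix V V K)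
    (x : V → Fin N → K) (p : V → Fin N) : dt (ga g x) p = g.det * dt x p := by
  unfold dt
  rw [← Matrix.det_mul]
  congr 1
  ext s l
  rw [Matrix.mul_apply]
  show (∑ v', g s v' • x v') (p l) = _
  rw [Finset.sum_apply]
  rfl

theorem hgt_frame {x x' : Fin r → Fin N → F} (h : Eqf x x') :
    Height.mulHeight (fun p : Fin r → Fin N => dt x' p) =
      Height.mulHeight (fun p : Fin r → Fin N => dt x p) := by
  obtain ⟨g, hg, rfl⟩ := h
  have e : (fun p : Fin r → Fin N => dt (ga g x) p) = g.det • fun p : Fin r → Fin N => dt x p := by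
    funext p
    exact dt_ga g x p
  rw [e, Height.mulHeight_smul_eq_mulHeight _ hg]

theorem Gd_of_GG {T : Fin k → Ten (cN (Fin r) N) (𝓞 F)} {m : Tup (cN (Fin r) N) (𝓞 F)}
    (h : GG (tF T) (cF m)) (v : Fin r) : Gd T v m := by
  have e : (fun i => co (der T v m i)) = der (tF T) v (cF m) := by
    funext i l
    exact (der_map (algebraMap (𝓞 F) F) T v m i l).symm
  have h1 : LinearIndependent F (M := Fin N → F) (fun i : Fin k => der (tF T) v (cF m) i) :=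
    LinearIndependent.comp h (fun i : Fin k => (v, i)) fun i j hij => congrArg Prod.snd hij
  have h2 : (fun i : Fin k => der (tF T) v (cF m) i) = fun i => co (der T v m i) := e.symm
  unfold BF.Gd
  rw [← h2]
  exact h1

theorem Inc_of' {T : Fin k → Ten (cN (Fin r) N) (𝓞 F)} {m : Tup (cN (Fin r) N) (𝓞 F)}
    (h : Inc (tF T) (cF m)) : Inc T m := by
  intro i
  have h1 := ev_cF (T i) m
  have h2 : ((ev (T i) m : 𝓞 F) : F) = 0 := h1.symm.trans (h i)
  exact_mod_cast h2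

theorem count_pts (hr : 1 ≤ r) (T : Fin k → Ten (cN (Fin r) N) (𝓞 F)) (hT : ∀ i, Alt (T i))
    (hE : ∀ ε : ℝ, 0 < ε → ∃ C : ℝ, 1 ≤ C ∧ ∀ (Z : ℝ) (X : Fin r → ℝ), 1 ≤ Z →
      (∀ u, 1 ≤ X u) → (∀ u, X u ≤ Z) → ((US T X).ncard : ℝ) ≤
        C * Nm (fun _ => finrank ℚ F * (N - k)) X * Z ^ ε)
    {l : ℝ} (hl : 0 < l) {α : ℝ} (hα0 : 0 ≤ α)
    (hα : ((N - k : ℕ) : ℝ) ≤ α * l) {ε : ℝ} (hε : 0 < ε) :
    ∃ C : ℝ, 1 ≤ C ∧ ∀ Y : ℝ, 1 ≤ Y → ∀ {ι : Type} (S : Set ι) (φ : ι → Fin r → Fin N → F),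
      (∀ P ∈ S, LinearIndependent F (φ P) ∧ Inc (tF T) (φ P) ∧ GG (tF T) (φ P) ∧
        Height.mulHeight (fun p : Fin r → Fin N => dt (φ P) p) ^ l ≤ Y) →
      (∀ P ∈ S, ∀ P' ∈ S, ∀ x, Eqf (φ P) x → Eqf (φ P') x → P = P') →
      S.Finite ∧ (S.ncard : ℝ) ≤ C * Y ^ (α + ε) := by
  have hd : 0 < finrank ℚ F := finrank_pos
  set d := finrank ℚ F with hddef
  have hdR : (0 : ℝ) < d := by exact_mod_cast hd
  obtain ⟨κ, C1, hκ, hC1, hfr⟩ := exists_fr F r
  have hne : Nonempty (Fin r) := ⟨⟨0, hr⟩⟩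
  have hw : (0 : ℝ) < d * l := mul_pos hdR hl
  obtain ⟨C, hC, hWS⟩ := ws_le T (fun _ => d * (N - k)) hE (fun _ => d * l) hw (fun _ => le_rfl)
    (α := α) (fun v => by
      push_cast
      calc (d : ℝ) * ((N - k : ℕ) : ℝ) ≤ d * (α * l) :=
            mul_le_mul_of_nonneg_left hα hdR.le
        _ = α * (d * l) := by ring) hα0 hε
  have hC31 : 1 ≤ C1 ^ l := Real.one_le_rpow hC1 hl.le
  refine ⟨C * (C1 ^ l) ^ (α + ε), ?_, fun Y hY ι S φ hS hinj => ?_⟩
  · have : 1 ≤ (C1 ^ l) ^ (α + ε) := Real.one_le_rpow hC31 (by linarith)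
    nlinarith
  have hex : ∀ P : ι, ∃ m : Fin r → Fin N → 𝓞 F, P ∈ S → Eqf (φ P) (fun s => co (m s)) ∧
      (∀ s, m s ≠ 0) ∧ (∏ s, ‖io (m s)‖) ^ d ≤ C1 * Height.mulHeight fun p : Fin r → Fin N =>
        dt (fun s => co (m s)) p := by
    intro P
    by_cases hP : P ∈ S
    · obtain ⟨y, g, hg0, hg, h1, -, h2⟩ := hfr (Fin r) (Equiv.refl _) N (φ P) (hS P hP).1
      exact ⟨y, fun _ => ⟨⟨g, hg0, funext fun s => hg s⟩, h1, h2⟩⟩
    · exact ⟨fun _ _ => 0, fun h => absurd h hP⟩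
  choose m hm using hex
  obtain ⟨hfin, hcard⟩ := hWS (C1 ^ l * Y) (by nlinarith)
  have hmaps : ∀ P ∈ S, m P ∈ WS T (fun _ => (d : ℝ) * l) (C1 ^ l * Y) := by
    intro P hP
    obtain ⟨hE1, hne, hH⟩ := hm P hP
    obtain ⟨h1, h3, h4, h5⟩ := hS P hP
    have h6 : Inc (tF T) (cF (m P)) := Inc_frame (Alt_tF hT) hE1 h3
    have h7 : GG (tF T) (cF (m P)) := GG_frame (Alt_tF hT) hE1 h4
    have h8 : Height.mulHeight (fun p : Fin r → Fin N => dt (fun s => co (m P s)) p) ^ l ≤ Y := by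
      rw [hgt_frame hE1]
      exact h5
    refine ⟨hne, Inc_of' h6, Gd_of_GG h7, ?_⟩
    refine le_trans ?_ (mul_le_mul_of_nonneg_left h8 (by linarith))
    rw [Real.finsetProd_rpow _ _ fun s _ => norm_nonneg _, Real.rpow_mul
      (Finset.prod_nonneg fun s _ => norm_nonneg _), Real.rpow_natCast,
      ← Real.mul_rpow (by linarith) (Height.mulHeight_pos _).le]
    exact Real.rpow_le_rpow (pow_nonneg (Finset.prod_nonneg fun s _ => norm_nonneg _) _) hH hl.le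
  have hinj' : Set.InjOn m S := by
    intro P hP P' hP' h
    refine hinj P hP P' hP' _ (hm P hP).1 ?_
    rw [h]
    exact (hm P' hP').1
  refine ⟨Set.Finite.of_injOn hmaps hinj' hfin, ?_⟩
  have h1 : (S.ncard : ℝ) ≤ ((WS T (fun _ => (d : ℝ) * l) (C1 ^ l * Y)).ncard : ℝ) := by
    exact_mod_cast Set.ncard_le_ncard_of_injOn m hmaps hinj' hfin
  refine (h1.trans hcard).trans (le_of_eq ?_)
  rw [Real.mul_rpow (by linarith) (by linarith)]
  ring

end Pool.Agent.L5helper6.GG
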