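import Pool.Agent.L5helper6.GG.Tri
import Pool.Agent.L5helper6.GG.Glue

/-!
Smooth hyperplane sections of `G(3,7)`.
-/

namespace Pool.Agent.L5helper6.GG

open scoped Classical
open NumberField Module Function
open Pool.Agent Pool.Agent.N852.GR Pool.Agent.L5helper6.BF

set_option linter.unusedSectionVars false

variable {K : Type} [Field K] [CharZero K] {N : ℕ}

theorem ev_add1 {V : Type} [Fintype V] [DecidableEq V] (t : Ten (cN V N) K) (v : V)
    (x : V → Fin N → K) (y z : Fin N → K) : ev t (update x v (y + z) : V → Fin N → K) =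
      ev t (update x v y : V → Fin N → K) + ev t (update x v z : V → Fin N → K) := by
  have h := ev_lin (n := cN V N) t v x 1 1 y z
  rw [one_smul, one_smul, one_mul, one_mul] at h
  exact h

theorem ev_sm1 {V : Type} [Fintype V] [DecidableEq V] (t : Ten (cN V N) K) (v : V)
    (x : V → Fin N → K) (c : K) (y : Fin N → K) : ev t (update x v (c • y) : V → Fin N → K) =
      c * ev t (update x v y : V → Fin N → K) := ev_smul1 (n := cN V N) t v x c y

/-- The family with three given vectors. -/
def f3 (a b v : Fin 3) (x y z : Fin N → K) : Fin 3 → Fin N → K :=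
  update (update (update 0 a x) b y) v z

theorem f3_b {a b v : Fin 3} (hbv : b ≠ v) (x y z : Fin N → K) :
    f3 a b v x y z = (update (update (update 0 a x) v z) b y : Fin 3 → Fin N → K) := by
  unfold f3
  rw [update_comm hbv]

theorem f3_a {a b v : Fin 3} (hab : a ≠ b) (hav : a ≠ v) (x y z : Fin N → K) :
    f3 a b v x y z = (update (update (update 0 b y) v z) a x : Fin 3 → Fin N → K) := by
  unfold f3
  rw [update_comm hab, update_comm hav]

/-- The trilinear map. -/
noncomputable def tr (t : Ten (cN (Fin 3) N) K) {a b v : Fin 3} (hab : a ≠ b) (hav : a ≠ v)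
    (hbv : b ≠ v) :
    (Fin N → K) →ₗ[K] (Fin N → K) →ₗ[K] (Fin N → K) →ₗ[K] K :=
  LinearMap.mk₂ K (fun x y =>
    { toFun := fun z => ev t (f3 a b v x y z)
      map_add' := fun z z' => ev_add1 t v _ z z'
      map_smul' := fun c z => ev_sm1 t v _ c z })
    (fun x x' y => by
      apply LinearMap.ext
      intro z
      show ev t (f3 a b v (x + x') y z) = ev t (f3 a b v x y z) + ev t (f3 a b v x' y z)
      rw [f3_a hab hav, f3_a hab hav, f3_a hab hav]
      exact ev_add1 t a _ x x')
    (fun c x y => by
      apply LinearMap.ext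
      intro z
      show ev t (f3 a b v (c • x) y z) = c * ev t (f3 a b v x y z)
      rw [f3_a hab hav, f3_a hab hav]
      exact ev_sm1 t a _ c x)
    (fun x y y' => by
      apply LinearMap.ext
      intro z
      show ev t (f3 a b v x (y + y') z) = ev t (f3 a b v x y z) + ev t (f3 a b v x y' z)
      rw [f3_b hbv, f3_b hbv, f3_b hbv]
      exact ev_add1 t b _ y y')
    (fun c x y => by
      apply LinearMap.ext
      intro z
      show ev t (f3 a b v x (c • y) z) = c * ev t (f3 a b v x y z)
      rw [f3_b hbv, f3_b hbv]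
      exact ev_sm1 t b _ c y)

theorem tr_apply (t : Ten (cN (Fin 3) N) K) {a b v : Fin 3} (hab : a ≠ b) (hav : a ≠ v)
    (hbv : b ≠ v) (x y z : Fin N → K) : tr t hab hav hbv x y z = ev t (f3 a b v x y z) := rfl

theorem tr_tri {t : Ten (cN (Fin 3) N) K} (ht : Alt t) {a b v : Fin 3} (hab : a ≠ b)
    (hav : a ≠ v) (hbv : b ≠ v) : Tri (tr t hab hav hbv) := by
  constructor
  · intro x z
    rw [tr_apply]
    refine alt_zero ht hab ?_
    unfold f3
    rw [update_of_ne hav, update_of_ne hab, update_self, update_of_ne hbv, update_self]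
  · intro x y
    rw [tr_apply]
    refine alt_zero ht hbv ?_
    unfold f3
    rw [update_self, update_of_ne hbv, update_self]

/-- The Jacobian criterion at all complex points. -/
def Smt {F : Type} [Field F] {V : Type} [Fintype V] [DecidableEq V] {k : ℕ}
    (T : Fin k → Ten (cN V N) F) : Prop :=
  ∀ (σ : F →+* ℂ) (x : V → Fin N → ℂ), LinearIndependent ℂ x → Inc (fun i j => σ (T i j)) x →
    ∀ s : Fin k → ℂ, s ≠ 0 → ∃ v, ∑ i, s i • der (fun i j => σ (T i j)) v x i ≠ 0

theorem exists_two : ∀ v : Fin 3, ∃ a b : Fin 3, a ≠ b ∧ a ≠ v ∧ b ≠ v ∧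
    ∀ t : Fin 3, t = a ∨ t = b ∨ t = v := by decide

theorem sm37 {F : Type} [Field F] (T : Fin 1 → Ten (cN (Fin 3) 7) F)
    (hT : ∀ i, Alt (T i)) (h : Smt T) : ∀ σ : F →+* ℂ, ∀ (v : Fin 3) (x : Fin 3 → Fin 7 → ℂ),
    LinearIndependent ℂ (fun s : {t : Fin 3 // t ≠ v} => x s.1) →
      SRk (fun i j => σ (T i j)) v 4 x := by
  intro σ v x hx c hc
  obtain ⟨a, b, hab, hav, hbv, hall⟩ := exists_two v
  set τ : Ten (cN (Fin 3) 7) ℂ := fun j => σ (T 0 j) with hτ
  have hAlt : Alt τ := by
    intro u v huv j
    show σ (T 0 (j ∘ Equiv.swap u v)) = -σ (T 0 j)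
    rw [hT 0 u v huv j, map_neg]
  set f := tr τ hab hav hbv with hf
  have hft : Tri f := tr_tri hAlt hab hav hbv
  set w : Fin 7 → ℂ := c ⟨b, hbv⟩ 0 • x a - c ⟨a, hav⟩ 0 • x b with hw
  have hw0 : w ≠ 0 := by
    intro h0
    have h1 := (LinearIndependent.pair_iff (R := ℂ) (x := x a) (y := x b)).1 (by
      have h2 := hx.comp (![⟨a, hav⟩, ⟨b, hbv⟩] : Fin 2 → {t : Fin 3 // t ≠ v}) (by
        intro i j hij
        fin_cases i <;> fin_cases j
        · rfl
        · exact absurd (congrArg Subtype.val hij) hab
        · exact absurd (congrArg Subtype.val hij) hab.symm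
        · rfl)
      have e : ((fun s : {t : Fin 3 // t ≠ v} => x s.1) ∘
          (![⟨a, hav⟩, ⟨b, hbv⟩] : Fin 2 → {t : Fin 3 // t ≠ v})) = ![x a, x b] := by
        funext i
        fin_cases i <;> rfl
      rwa [e] at h2) (c ⟨b, hbv⟩ 0) (-c ⟨a, hav⟩ 0) (by rw [neg_smul, ← sub_eq_add_neg]; exact h0)
    apply hc
    funext t i
    have hi : i = 0 := Subsingleton.elim _ _
    subst hi
    rcases hall t.1 with h2 | h2 | h2
    · have : t = ⟨a, hav⟩ := Subtype.ext h2
      rw [this]
      exact neg_eq_zero.1 h1.2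
    · have : t = ⟨b, hbv⟩ := Subtype.ext h2
      rw [this]
      exact h1.1
    · exact absurd h2 t.2
  set M := (∑ t : {t : Fin 3 // t ≠ v}, ∑ i, c t i • Matrix.of fun (l l' : Fin 7) =>
    mt (fun i j => σ (T i j)) t.1 v x i l l') with hM
  -- the matrix
  have hMf : ∀ l l', M l l' = f w (Pi.single l 1) (Pi.single l' 1) := by
    intro l l'
    have e1 : M l l' = ∑ t : {t : Fin 3 // t ≠ v}, c t 0 *
        ev τ (update (update x v (Pi.single l' 1)) t.1 (Pi.single l 1)) := by
      rw [hM, Matrix.sum_apply]
      refine Finset.sum_congr rfl fun t _ => ?_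
      rw [Fin.sum_univ_one]
      rfl
    rw [e1, Fintype.sum_eq_add (⟨a, hav⟩ : {t : Fin 3 // t ≠ v}) ⟨b, hbv⟩
      (fun h0 => hab (congrArg Subtype.val h0)) (by
        rintro t ⟨h1, h2⟩
        rcases hall t.1 with h3 | h3 | h3
        · exact absurd (Subtype.ext h3) h1
        · exact absurd (Subtype.ext h3) h2
        · exact absurd h3 t.2)]
    have e2 : (update (update x v (Pi.single l' 1)) a (Pi.single l 1) : Fin 3 → Fin 7 → ℂ) =
        f3 a b v (Pi.single l 1) (x b) (Pi.single l' 1) := by
      funext t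
      unfold f3
      rcases hall t with h3 | h3 | h3
      · rw [h3, update_self, update_of_ne hav, update_of_ne hab, update_self]
      · rw [h3, update_of_ne hab.symm, update_of_ne hbv, update_of_ne hbv, update_self]
      · rw [h3, update_of_ne hav.symm, update_self, update_self]
    have e3 : (update (update x v (Pi.single l' 1)) b (Pi.single l 1) : Fin 3 → Fin 7 → ℂ) =
        f3 a b v (x a) (Pi.single l 1) (Pi.single l' 1) := by
      funext t
      unfold f3
      rcases hall t with h3 | h3 | h3
      · rw [h3, update_of_ne hab, update_of_ne hav, update_of_ne hav, update_of_ne hab,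
          update_self]
      · rw [h3, update_self, update_of_ne hbv, update_self]
      · rw [h3, update_of_ne hbv.symm, update_self, update_self]
    have e4 : ev τ (update (update x v (Pi.single l' 1)) a (Pi.single l 1)) =
        f (Pi.single l 1) (x b) (Pi.single l' 1) := congrArg (ev τ) e2
    have e5 : ev τ (update (update x v (Pi.single l' 1)) b (Pi.single l 1)) =
        f (x a) (Pi.single l 1) (Pi.single l' 1) := congrArg (ev τ) e3
    rw [e4, e5, hft.s1 (Pi.single l 1) (x b), hw, map_sub, map_smul, map_smul]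
    simp only [LinearMap.sub_apply, LinearMap.smul_apply, smul_eq_mul]
    ring
  have hMv : ∀ y z : Fin 7 → ℂ, f w y z = ∑ l, y l * ∑ l', M l l' * z l' := by
    intro y z
    have hy : y = ∑ l, y l • (Pi.single l 1 : Fin 7 → ℂ) := by
      funext m
      simp [Finset.sum_apply, Pi.single_apply]
    have hz : z = ∑ l, z l • (Pi.single l 1 : Fin 7 → ℂ) := by
      funext m
      simp [Finset.sum_apply, Pi.single_apply]
    conv_lhs => rw [hy, hz]
    have e6 : f w (∑ l, y l • (Pi.single l 1 : Fin 7 → ℂ)) =
        ∑ l, y l • f w (Pi.single l 1) := by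
      rw [map_sum]
      exact Finset.sum_congr rfl fun l _ => map_smul _ _ _
    rw [e6, LinearMap.sum_apply]
    refine Finset.sum_congr rfl fun l _ => ?_
    rw [LinearMap.smul_apply, smul_eq_mul, map_sum]
    congr 1
    refine Finset.sum_congr rfl fun l' _ => ?_
    rw [map_smul, smul_eq_mul, hMf]
    ring
  by_contra hcon
  have hrk : M.rank ≤ 3 := by
    have : ¬ 4 ≤ M.rank := hcon
    omega
  have hker : 4 ≤ finrank ℂ (LinearMap.ker (f w)) := by
    have h1 : LinearMap.ker M.mulVecLin ≤ LinearMap.ker (f w) := by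
      intro y hy
      rw [LinearMap.mem_ker] at hy ⊢
      apply LinearMap.ext
      intro z
      rw [hft.s2, hMv, LinearMap.zero_apply]
      have h2 : ∀ l, ∑ l', M l l' * y l' = 0 := fun l => congrFun hy l
      simp [h2]
    have h2 := Submodule.finrank_mono h1
    have h3 : finrank ℂ (LinearMap.range M.mulVecLin) + finrank ℂ (LinearMap.ker M.mulVecLin) =
        7 := by
      rw [LinearMap.finrank_range_add_finrank_ker, finrank_fin_fun]
    have h4 : finrank ℂ (LinearMap.range M.mulVecLin) ≤ 3 := hrk
    omega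
  obtain ⟨p, q, hli, h1, h2, h3⟩ := sing hft (finrank_fin_fun ℂ) hw0 hker
  have hne : ∀ s : Fin 1 → ℂ, s = 1 → s ≠ 0 := by
    rintro s rfl h0
    exact one_ne_zero (congrFun h0 0)
  have hLI : LinearIndependent ℂ (f3 a b v w p q) := by
    have h4 := hli.comp (fun t : Fin 3 => if t = a then (1 : Fin 3) else if t = b then 2 else 0)
      (by
        intro s t hst
        simp only at hst
        rcases hall s with e1 | e1 | e1 <;> rcases hall t with e2 | e2 | e2 <;>
          simp [e1, e2, hab, hab.symm, hav.symm, hbv.symm] at hst ⊢)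
    have e : (![q, w, p] ∘ (fun t : Fin 3 => if t = a then (1 : Fin 3) else if t = b then 2
        else 0)) = f3 a b v w p q := by
      funext t
      unfold f3
      rw [comp_apply]
      rcases hall t with e1 | e1 | e1
      · rw [e1, if_pos rfl, update_of_ne hav, update_of_ne hab, update_self]
        rfl
      · rw [e1, if_neg hab.symm, if_pos rfl, update_of_ne hbv, update_self]
        rfl
      · rw [e1, if_neg hav.symm, if_neg hbv.symm, update_self]
        rfl
    rwa [e] at h4
  have hInc : Inc (fun i j => σ (T i j)) (f3 a b v w p q) := by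
    intro i
    have hi : i = 0 := Subsingleton.elim _ _
    subst hi
    show f w p q = 0
    rw [h1, LinearMap.zero_apply]
  obtain ⟨t, ht⟩ := h σ _ hLI hInc 1 (hne 1 rfl)
  apply ht
  rw [Fin.sum_univ_one]
  funext l
  rw [Pi.one_apply, one_smul]
  show ev τ (update (f3 a b v w p q) t (Pi.single l 1)) = 0
  rcases hall t with e1 | e1 | e1
  · rw [e1, f3_a hab hav, update_idem, ← f3_a hab hav]
    show f (Pi.single l 1) p q = 0
    rw [hft.s1, hft.s2, h3]
    simp
  · rw [e1, f3_b hbv, update_idem, ← f3_b hbv]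
    show f w (Pi.single l 1) q = 0
    rw [hft.s2, h2]
    simp
  · have e : update (f3 a b v w p q) v (Pi.single l 1) = f3 a b v w p (Pi.single l 1) := by
      unfold f3
      rw [update_idem]
    rw [e1, e]
    show f w p (Pi.single l 1) = 0
    rw [h1]
    simp

end Pool.Agent.L5helper6.GG
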