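import Mathlib

/-!
Alternating trilinear forms in seven variables.
-/

namespace Pool.Agent.L5helper6.GG

open Module

variable {K : Type} [Field K] {V : Type} [AddCommGroup V] [Module K V]

/-- Alternating trilinear forms. -/
structure Tri (f : V →ₗ[K] V →ₗ[K] V →ₗ[K] K) : Prop where
  a : ∀ x z, f x x z = 0
  b : ∀ x y, f x y y = 0

variable {f : V →ₗ[K] V →ₗ[K] V →ₗ[K] K}

theorem Tri.s1 (h : Tri f) (x y z : V) : f x y z = -f y x z := by
  have h1 := h.a (x + y) z
  simp only [map_add, LinearMap.add_apply, h.a] at h1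
  linear_combination h1

theorem Tri.s2 (h : Tri f) (x y z : V) : f x y z = -f x z y := by
  have h1 := h.b x (y + z)
  simp only [map_add, LinearMap.add_apply, h.b] at h1
  linear_combination h1

theorem Tri.s3 (h : Tri f) (x y : V) : f x y x = 0 := by
  rw [h.s2, h.a, neg_zero]

theorem Tri.perm (h : Tri f) (x y z : V) : f y x z = -f x y z ∧ f y z x = f x y z ∧
    f z x y = f x y z ∧ f z y x = -f x y z ∧ f x z y = -f x y z := by
  refine ⟨h.s1 y x z, ?_, ?_, ?_, h.s2 x z y⟩
  · rw [h.s2 y z x, h.s1 y x z, neg_neg]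
  · rw [h.s1 z x y, h.s2 x z y, neg_neg]
  · rw [h.s1 z y x, h.s2 y z x, h.s1 y x z, neg_neg]

/-- The form on a space of dimension four has a radical. -/
theorem exists_rad (h : Tri f) (k : Fin 4 → V) : ∃ c : Fin 4 → K, c ≠ 0 ∧
    ∀ i j, f (∑ s, c s • k s) (k i) (k j) = 0 := by
  obtain ⟨a1, a2, a3, a4, a5⟩ := h.perm (k 0) (k 1) (k 2)
  obtain ⟨b1, b2, b3, b4, b5⟩ := h.perm (k 0) (k 1) (k 3)
  obtain ⟨c1, c2, c3, c4, c5⟩ := h.perm (k 0) (k 2) (k 3)
  obtain ⟨d1, d2, d3, d4, d5⟩ := h.perm (k 1) (k 2) (k 3)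
  by_cases h0 : f (k 0) (k 1) (k 2) = 0 ∧ f (k 0) (k 1) (k 3) = 0 ∧ f (k 0) (k 2) (k 3) = 0 ∧
    f (k 1) (k 2) (k 3) = 0
  · obtain ⟨h1, h2, h3, h4⟩ := h0
    refine ⟨![1, 0, 0, 0], fun h5 => ?_, fun i j => ?_⟩
    · have := congrFun h5 0
      simp at this
    · fin_cases i <;> fin_cases j <;>
        simp [Fin.sum_univ_four, h.a, h.b, h.s3, h1, h2, h3, a5, b5, c5]
  · refine ⟨![f (k 1) (k 2) (k 3), -f (k 0) (k 2) (k 3), f (k 0) (k 1) (k 3),
      -f (k 0) (k 1) (k 2)], fun h5 => h0 ?_, fun i j => ?_⟩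
    · have q0 := congrFun h5 0
      have q1 := congrFun h5 1
      have q2 := congrFun h5 2
      have q3 := congrFun h5 3
      simp only [Matrix.cons_val_zero, Matrix.cons_val_one, Matrix.cons_val, Pi.zero_apply,
        neg_eq_zero] at q0 q1 q2 q3
      exact ⟨q3, q2, q1, q0⟩
    · fin_cases i <;> fin_cases j <;>
        simp [Fin.sum_univ_four, h.a, h.b, h.s3, a1, a2, a3, a4, a5, b1, b2, b3, b4, b5,
          c1, c2, c3, c4, c5, d1, d2, d3, d4, d5] <;> ring

/-- The rank of an alternating form is not three. -/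
theorem parity [FiniteDimensional K V] (B : V →ₗ[K] V →ₗ[K] K) (hB : ∀ x, B x x = 0)
    (h7 : finrank K V = 7) (h : 4 ≤ finrank K (LinearMap.ker B)) :
    5 ≤ finrank K (LinearMap.ker B) := by
  by_contra hcon
  have h4 : finrank K (LinearMap.ker B) = 4 := by omega
  have hs : ∀ x y, B x y = -B y x := by
    intro x y
    have h1 := hB (x + y)
    simp only [map_add, LinearMap.add_apply, hB] at h1
    linear_combination h1
  obtain ⟨U, hU⟩ := Submodule.exists_isCompl (LinearMap.ker B)
  have hU3 : finrank K U = 3 := by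
    have := Submodule.finrank_add_eq_of_isCompl hU
    omega
  let b := finBasisOfFinrankEq K U hU3
  have key : ∀ v ∈ U, (∀ j, B v (b j) = 0) → v = 0 := by
    intro v hv h1
    have h2 : v ∈ LinearMap.ker B := by
      rw [LinearMap.mem_ker]
      apply LinearMap.ext
      intro z
      have h3 : z ∈ LinearMap.ker B ⊔ U := by
        rw [hU.sup_eq_top]
        trivial
      obtain ⟨z1, hz1, z2, hz2, rfl⟩ := Submodule.mem_sup.1 h3
      rw [map_add, LinearMap.zero_apply, hs v z1, LinearMap.mem_ker.1 hz1, LinearMap.zero_apply,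
        neg_zero, zero_add]
      have h4 : (⟨z2, hz2⟩ : U) ∈ Submodule.span K (Set.range b) := by
        rw [b.span_eq]
        trivial
      have h5 : Submodule.span K (Set.range b) ≤ LinearMap.ker ((B v) ∘ₗ U.subtype) := by
        rw [Submodule.span_le]
        rintro _ ⟨j, rfl⟩
        exact h1 j
      exact h5 h4
    exact Submodule.disjoint_def.1 hU.disjoint v h2 hv
  have hb := b.linearIndependent
  rw [Fintype.linearIndependent_iff] at hb
  set p := B (b 0) (b 1) with hp
  set q := B (b 0) (b 2) with hq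
  set r := B (b 1) (b 2) with hr
  have e1 : B (b 1) (b 0) = -p := hs _ _
  have e2 : B (b 2) (b 0) = -q := hs _ _
  have e3 : B (b 2) (b 1) = -r := hs _ _
  have h5 : (∑ j, (![r, -q, p] : Fin 3 → K) j • b j) = 0 := by
    apply Subtype.ext
    refine key _ (Subtype.mem _) fun j => ?_
    rw [Fin.sum_univ_three]
    fin_cases j <;> simp [hB, e1, e2, e3, ← hp, ← hq, ← hr] <;> ring
  have h6 := hb _ h5
  have hr0 : r = 0 := h6 0
  have hq0 : q = 0 := neg_eq_zero.1 (h6 1)
  have hp0 : p = 0 := h6 2
  have h7 : ((b 0 : U) : V) = 0 := by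
    refine key _ (Subtype.mem _) fun j => ?_
    fin_cases j
    · exact hB _
    · exact hp0
    · exact hq0
  exact b.ne_zero 0 (Subtype.ext h7)

/-- **Singular points of hyperplane sections of `G(3,7)`.** -/
theorem sing [FiniteDimensional K V] (h : Tri f) (h7 : finrank K V = 7) {w : V} (hw : w ≠ 0)
    (hr : 4 ≤ finrank K (LinearMap.ker (f w))) :
    ∃ b c : V, LinearIndependent K ![c, w, b] ∧ f w b = 0 ∧ f w c = 0 ∧ f b c = 0 := by
  have h5 := parity (f w) (h.b w) h7 hr
  have hww : w ∈ LinearMap.ker (f w) := LinearMap.mem_ker.2 (LinearMap.ext fun z => h.a w z)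
  have l1 : LinearIndependent K ![(⟨w, hww⟩ : LinearMap.ker (f w))] := by
    rw [linearIndependent_unique_iff]
    intro h0
    exact hw (congrArg Subtype.val h0)
  obtain ⟨k1, l2⟩ := exists_linearIndependent_cons_of_lt_finrank l1 (by omega)
  obtain ⟨k2, l3⟩ := exists_linearIndependent_cons_of_lt_finrank l2 (by omega)
  obtain ⟨k3, l4⟩ := exists_linearIndependent_cons_of_lt_finrank l3 (by omega)
  obtain ⟨k4, l5⟩ := exists_linearIndependent_cons_of_lt_finrank l4 (by omega)
  set u : Fin 4 → V := ![k4, k3, k2, k1] with hu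
  set u' : Fin 5 → V := ![k4, k3, k2, k1, w] with hu'
  have l6 : LinearIndependent K u' := by
    have l7 := l5.map' (LinearMap.ker (f w)).subtype (Submodule.ker_subtype _)
    have e : (LinearMap.ker (f w)).subtype ∘
        (Fin.cons k4 (Fin.cons k3 (Fin.cons k2 (Fin.cons k1 ![⟨w, hww⟩])))) = u' := by
      funext i
      fin_cases i <;> rfl
    rwa [e] at l7
  have hker : ∀ i, f w (u i) = 0 := by
    intro i
    fin_cases i
    · exact k4.2
    · exact k3.2
    · exact k2.2
    · exact k1.2
  obtain ⟨c, hc, hrad⟩ := exists_rad h u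
  set b := ∑ s, c s • u s with hb
  have hwb : f w b = 0 := by
    rw [hb, map_sum]
    refine Finset.sum_eq_zero fun s _ => ?_
    rw [map_smul, hker, smul_zero]
  have hlb : LinearIndependent K ![w, b] := by
    rw [LinearIndependent.pair_iff]
    intro s t hst
    rw [Fintype.linearIndependent_iff] at l6
    have h1 := l6 ![t * c 0, t * c 1, t * c 2, t * c 3, s] (by
      rw [← hst, hb]
      simp [Fin.sum_univ_five, Fin.sum_univ_four, hu, hu', smul_smul]
      abel)
    have ht : t = 0 := by
      by_contra ht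
      apply hc
      funext i
      have q0 : t * c 0 = 0 := h1 0
      have q1 : t * c 1 = 0 := h1 1
      have q2 : t * c 2 = 0 := h1 2
      have q3 : t * c 3 = 0 := h1 3
      fin_cases i
      · exact (mul_eq_zero.1 q0).resolve_left ht
      · exact (mul_eq_zero.1 q1).resolve_left ht
      · exact (mul_eq_zero.1 q2).resolve_left ht
      · exact (mul_eq_zero.1 q3).resolve_left ht
    exact ⟨h1 4, ht⟩
  set W := Submodule.span K (Set.range u') with hW
  have hWd : finrank K W = 5 := by
    rw [hW, finrank_span_eq_card l6, Fintype.card_fin]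
  -- the form in `b` vanishes on `W`
  have hbW : ∀ y ∈ W, ∀ z ∈ W, f b y z = 0 := by
    have q1 : ∀ i j, f b (u' i) (u' j) = 0 := by
      intro i j
      have q2 : ∀ z, f b w z = 0 := fun z => by rw [h.s1, hwb]; simp
      have q3 : ∀ y, f b y w = 0 := fun y => by rw [h.s2, q2, neg_zero]
      have q4 : ∀ i : Fin 5, u' i = w ∨ ∃ i' : Fin 4, u' i = u i' := by
        intro i
        fin_cases i
        · exact Or.inr ⟨0, rfl⟩
        · exact Or.inr ⟨1, rfl⟩
        · exact Or.inr ⟨2, rfl⟩
        · exact Or.inr ⟨3, rfl⟩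
        · exact Or.inl rfl
      rcases q4 i with h1 | ⟨i', h1⟩
      · rw [h1, q2]
      · rcases q4 j with h2 | ⟨j', h2⟩
        · rw [h2, q3]
        · rw [h1, h2]
          exact hrad i' j'
    intro y hy z hz
    refine Submodule.span_induction (p := fun y _ => f b y z = 0) ?_ ?_ ?_ ?_ hy
    · rintro _ ⟨i, rfl⟩
      refine Submodule.span_induction (p := fun z _ => f b (u' i) z = 0) ?_ ?_ ?_ ?_ hz
      · rintro _ ⟨j, rfl⟩
        exact q1 i j
      · exact map_zero _
      · intro z z' _ _ h1 h2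
        rw [map_add, h1, h2, add_zero]
      · intro a z _ h1
        rw [map_smul, h1, smul_zero]
    · rw [map_zero, LinearMap.zero_apply]
    · intro z z' _ _ h1 h2
      rw [map_add, LinearMap.add_apply, h1, h2, add_zero]
    · intro a z _ h1
      rw [map_smul, LinearMap.smul_apply, h1, smul_zero]
  set L : W →ₗ[K] (V →ₗ[K] K) := (f b) ∘ₗ W.subtype with hL
  have hran : LinearMap.range L ≤ W.dualAnnihilator := by
    rintro _ ⟨y, rfl⟩
    rw [Submodule.mem_dualAnnihilator]
    intro z hz
    exact hbW y y.2 z hz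
  have h8 : finrank K (LinearMap.range L) ≤ 2 := by
    have q1 := Submodule.finrank_mono hran
    have q2 : finrank K W + finrank K W.dualAnnihilator = 7 :=
      (Subspace.finrank_add_finrank_dualAnnihilator_eq W).trans h7
    rw [hWd] at q2
    have key : ∀ a b : ℕ, a ≤ b → 5 + b = 7 → a ≤ 2 := by omega
    exact key _ _ q1 q2
  have h9 : 3 ≤ finrank K (LinearMap.ker L) := by
    have q1 : finrank K (LinearMap.range L) + finrank K (LinearMap.ker L) = 5 :=
      (LinearMap.finrank_range_add_finrank_ker L).trans hWd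
    have key : ∀ a b : ℕ, a + b = 5 → a ≤ 2 → 3 ≤ b := by omega
    exact key _ _ q1 h8
  obtain ⟨c', hc', hc2⟩ : ∃ c', c' ∈ (LinearMap.ker L).map W.subtype ∧
      c' ∉ Submodule.span K (Set.range ![w, b]) := by
    by_contra hcon
    push Not at hcon
    have q1 : (LinearMap.ker L).map W.subtype ≤ Submodule.span K (Set.range ![w, b]) := hcon
    have q2 := Submodule.finrank_mono q1
    have q3 : finrank K ((LinearMap.ker L).map W.subtype) = finrank K (LinearMap.ker L) :=
      Submodule.finrank_map_subtype_eq _ _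
    have q4 := finrank_range_le_card (R := K) ![w, b]
    rw [Fintype.card_fin] at q4
    unfold Set.finrank at q4
    omega
  obtain ⟨y, hy, rfl⟩ := hc'
  have hwW : ∀ y ∈ W, f w y = 0 := by
    intro y hy
    have q1 : W ≤ LinearMap.ker (f w) := by
      rw [hW, Submodule.span_le]
      rintro _ ⟨i, rfl⟩
      fin_cases i
      · exact k4.2
      · exact k3.2
      · exact k2.2
      · exact k1.2
      · exact hww
    exact q1 hy
  refine ⟨b, W.subtype y, ?_, hwb, hwW _ y.2, hy⟩
  exact linearIndependent_fin_cons.2 ⟨hlb, hc2⟩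

end Pool.Agent.L5helper6.GG
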